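import Mathlib

/-! Corner-free sets with block symmetries. -/

namespace Pool.Agent.H161R2.CornerSym

/-- `F_2^(4m+s)`: `m` blocks of four coordinates and `s` further coordinates -/
abbrev Vec (m s : ℕ) := (Fin m → Fin 4 → ZMod 2) × (Fin s → ZMod 2)

/-- the double transpositions of `{0,1,2,3}` (and the identity, `j = 0`): `p ↦ p xor j` -/
def dt (j p : Fin 4) : Fin 4 := Fin.ofNat 4 (p.1 ^^^ j.1)

/-- the double transposition `j` applied to the four coordinates of block `i` -/
def act {m s : ℕ} (i : Fin m) (j : Fin 4) (x : Vec m s) : Vec m s :=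
  (Function.update x.1 i (fun p => x.1 i (dt j p)), x.2)

/-- no corner `(x,y), (x+z,y), (x,y+z)` with `z ≠ 0` in `A` -/
def CornerFree {m s : ℕ} (A : Finset (Vec m s × Vec m s)) : Prop :=
  ∀ x y z : Vec m s, z ≠ 0 → (x, y) ∈ A → (x + z, y) ∈ A → (x, y + z) ∉ A

/-- all four pairs of bits occur -/
def Rainbow (a : (Fin 4 → ZMod 2) × (Fin 4 → ZMod 2)) : Prop :=
  ∀ p q : Fin 4, p ≠ q → a.1 p ≠ a.1 q ∨ a.2 p ≠ a.2 q

instance (a : (Fin 4 → ZMod 2) × (Fin 4 → ZMod 2)) : Decidable (Rainbow a) := by
  unfold Rainbow; infer_instance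

lemma rainbow_moves : ∀ a : (Fin 4 → ZMod 2) × (Fin 4 → ZMod 2), Rainbow a →
    ∃ j k : Fin 4, ∀ p, a.1 (dt j p) = a.1 p + 1 ∧ a.2 (dt j p) = a.2 p ∧
      a.1 (dt k p) = a.1 p ∧ a.2 (dt k p) = a.2 p + 1 := by
  decide +kernel

lemma card_dull : (Finset.univ.filter
    (fun a : (Fin 4 → ZMod 2) × (Fin 4 → ZMod 2) => ¬ Rainbow a)).card = 232 := by
  decide +kernel

lemma dull {m s : ℕ} {A : Finset (Vec m s × Vec m s)} (hA : CornerFree A)
    {a : Vec m s × Vec m s} (ha : a ∈ A) (hk : ∀ i j, (act i j a.1, act i j a.2) ∈ A) (i : Fin m) :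
    ¬ Rainbow (a.1.1 i, a.2.1 i) := by
  intro hR
  obtain ⟨j, k, h⟩ := rainbow_moves _ hR
  obtain ⟨x, y⟩ := a
  simp only at h hk ha
  set z : Vec m s := (Pi.single i 1, 0) with hz
  have hz0 : z ≠ 0 := by
    intro h0
    have h1 := congrFun (congrFun (congrArg Prod.fst h0) i) 0
    simp [hz] at h1
  have e1 : act i j x = x + z := by
    apply Prod.ext
    · funext t p
      by_cases ht : t = i
      · subst ht
        simp only [act, hz, Function.update_self, Prod.fst_add, Pi.add_apply, Pi.single_eq_same,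
          Pi.one_apply]
        exact (h p).1
      · simp [act, hz, ht]
    · simp [act, hz]
  have e2 : act i j y = y := by
    apply Prod.ext
    · funext t p
      by_cases ht : t = i
      · subst ht
        simp only [act, Function.update_self]
        exact (h p).2.1
      · simp [act, ht]
    · simp [act]
  have e3 : act i k x = x := by
    apply Prod.ext
    · funext t p
      by_cases ht : t = i
      · subst ht
        simp only [act, Function.update_self]
        exact (h p).2.2.1
      · simp [act, ht]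
    · simp [act]
  have e4 : act i k y = y + z := by
    apply Prod.ext
    · funext t p
      by_cases ht : t = i
      · subst ht
        simp only [act, hz, Function.update_self, Prod.fst_add, Pi.add_apply, Pi.single_eq_same,
          Pi.one_apply]
        exact (h p).2.2.2
      · simp [act, hz, ht]
    · simp [act, hz]
  have h1 := hk i j
  have h2 := hk i k
  rw [e1, e2] at h1
  rw [e3, e4] at h2
  exact hA x y z hz0 ha h1 h2

open Classical in
/-- the points of `A` all of whose images under the maps `act i j` lie in `A` -/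
noncomputable def kept {m s : ℕ} (A : Finset (Vec m s × Vec m s)) : Finset (Vec m s × Vec m s) :=
  A.filter (fun a => ∀ i j, (act i j a.1, act i j a.2) ∈ A)

lemma kept_eq {m s : ℕ} {A : Finset (Vec m s × Vec m s)}
    (h : ∀ a ∈ A, ∀ i j, (act i j a.1, act i j a.2) ∈ A) : kept A = A := by
  classical
  unfold kept
  apply Finset.ext
  intro a
  constructor
  · intro ha
    exact (Finset.mem_filter.1 ha).1
  · intro ha
    exact Finset.mem_filter.2 ⟨ha, h a ha⟩

theorem main (m s : ℕ) (A : Finset (Vec m s × Vec m s)) (hA : CornerFree A) :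
    (kept A).card ≤ 232 ^ m * 4 ^ s := by
  classical
  set D := Finset.univ.filter (fun a : (Fin 4 → ZMod 2) × (Fin 4 → ZMod 2) => ¬ Rainbow a) with hD
  set T : Finset ((Fin m → (Fin 4 → ZMod 2) × (Fin 4 → ZMod 2)) ×
      ((Fin s → ZMod 2) × (Fin s → ZMod 2))) :=
    (Fintype.piFinset (fun _ : Fin m => D)) ×ˢ Finset.univ with hT
  have hTc : T.card = 232 ^ m * 4 ^ s := by
    rw [hT, Finset.card_product, Fintype.card_piFinset, hD, card_dull]
    simp only [Finset.prod_const, Finset.card_univ, Fintype.card_fin, Fintype.card_prod,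
      Fintype.card_pi, ZMod.card]
    rw [← mul_pow]
    norm_num
  rw [← hTc]
  apply Finset.card_le_card_of_injOn
    (fun a : Vec m s × Vec m s => ((fun i => (a.1.1 i, a.2.1 i)), (a.1.2, a.2.2)))
  · intro a ha
    obtain ⟨ha, hk⟩ := Finset.mem_filter.1 (show a ∈ A.filter _ from ha)
    rw [Finset.mem_coe, hT, Finset.mem_product]
    refine ⟨?_, Finset.mem_univ _⟩
    rw [Fintype.mem_piFinset]
    intro i
    exact Finset.mem_filter.2 ⟨Finset.mem_univ _, dull hA ha hk i⟩
  · intro a _ b _ hab
    obtain ⟨⟨x1, x2⟩, ⟨y1, y2⟩⟩ := a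
    obtain ⟨⟨u1, u2⟩, ⟨v1, v2⟩⟩ := b
    simp only [Prod.mk.injEq] at hab
    obtain ⟨h1, h2, h3⟩ := hab
    have h4 : x1 = u1 := by funext i; exact (Prod.mk.inj (congrFun h1 i)).1
    have h5 : y1 = v1 := by funext i; exact (Prod.mk.inj (congrFun h1 i)).2
    rw [h4, h5, h2, h3]

end Pool.Agent.H161R2.CornerSym
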