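import Mathlib

set_option autoImplicit false

/-!
# Evasiveness of graph properties: definitions
-/

namespace Pool.Agent.H161R2.Evas

open scoped Classical

/-- A strategy (decision tree) which asks whether two vertices of a graph on `Fin n` are
adjacent. -/
inductive Strategy (n : ℕ) where
  | answer (b : Bool) : Strategy n
  | ask (i j : Fin n) (no yes : Strategy n) : Strategy n

/-- the largest number of questions asked on a path of the tree -/
def Strategy.depth {n : ℕ} : Strategy n → ℕ
  | .answer _ => 0
  | .ask _ _ a b => max a.depth b.depth + 1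

/-- the final answer for the graph `H` -/
noncomputable def Strategy.run {n : ℕ} : Strategy n → SimpleGraph (Fin n) → Bool
  | .answer b, _ => b
  | .ask i j a b, H => if H.Adj i j then b.run H else a.run H

/-- A property of graphs on `Fin n` is evasive if every strategy deciding it has depth at
least `n.choose 2`. -/
def Evasive {n : ℕ} (P : Set (SimpleGraph (Fin n))) : Prop :=
  ∀ T : Strategy n, (∀ H, T.run H = true ↔ H ∈ P) → n.choose 2 ≤ T.depth

/-- Monotone (closed under adding edges) and isomorphism-invariant properties. -/
def MonoInv {n : ℕ} (P : Set (SimpleGraph (Fin n))) : Prop :=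
  (∀ H K : SimpleGraph (Fin n), H ≤ K → H ∈ P → K ∈ P) ∧
  ∀ (σ : Equiv.Perm (Fin n)) (H : SimpleGraph (Fin n)), H ∈ P → H.map σ.toEmbedding ∈ P

/-- the number of all monotone isomorphism-invariant properties of graphs on `Fin n` -/
noncomputable def numAll (n : ℕ) : ℕ :=
  Nat.card {P : Set (SimpleGraph (Fin n)) // MonoInv P}

/-- the number of the non-evasive ones -/
noncomputable def numNonEvasive (n : ℕ) : ℕ :=
  Nat.card {P : Set (SimpleGraph (Fin n)) // MonoInv P ∧ ¬ Evasive P}

end Pool.Agent.H161R2.Evas
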