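import Mathlib

set_option autoImplicit false

/-!
# Almost all invariant monotone families are evasive: core

`X` is a finite set of variables on which a finite group `G` acts.  Inputs are finite sets
`S : Finset X` (the variables that are 1).  Families are `F : Finset (Finset X)`.
-/

namespace Pool.Agent.H161R2.Evas

open Finset

/-- Decision trees querying elements of `X`. -/
inductive DTree (X : Type*) where
  | leaf (b : Bool) : DTree X
  | node (x : X) (no yes : DTree X) : DTree X

namespace DTree
variable {X : Type*} [DecidableEq X]

/-- worst case number of queries -/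
def depth : DTree X → ℕ
  | leaf _ => 0
  | node _ a b => max a.depth b.depth + 1

/-- the answer on the input `S` -/
def eval : DTree X → Finset X → Bool
  | leaf b, _ => b
  | node x a b, S => if x ∈ S then b.eval S else a.eval S

end DTree

variable {X : Type*} [Fintype X] [DecidableEq X]

/-- signed count -/
def wt (F : Finset (Finset X)) : ℤ := ∑ S ∈ F, (-1 : ℤ) ^ S.card

lemma sum_eval_aux (T : DTree X) : ∀ (U B : Finset X), Disjoint U B → T.depth < U.card →
    ∑ S ∈ U.powerset, (if T.eval (B ∪ S) = true then (-1 : ℤ) ^ S.card else 0) = 0 := by
  induction T with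
  | leaf b =>
    intro U B _ h
    have hU : U.Nonempty := by
      rw [← Finset.card_pos]; omega
    cases b with
    | true =>
      simp only [DTree.eval, if_true]
      exact Finset.sum_powerset_neg_one_pow_card_of_nonempty hU
    | false => simp [DTree.eval]
  | node x a b iha ihb =>
    intro U B hUB h
    simp only [DTree.depth] at h
    have hac : a.depth < U.card - 1 := by omega
    have hbc : b.depth < U.card - 1 := by omega
    by_cases hx : x ∈ U
    · obtain ⟨V, hV, rfl⟩ : ∃ V : Finset X, x ∉ V ∧ insert x V = U :=
        ⟨U.erase x, Finset.notMem_erase x U, Finset.insert_erase hx⟩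
      have hcard : (insert x V).card = V.card + 1 := Finset.card_insert_of_notMem hV
      rw [hcard] at hac hbc
      have hVB : Disjoint V B := Finset.disjoint_of_subset_left (Finset.subset_insert x V) hUB
      have hxB : x ∉ B := Finset.disjoint_left.mp hUB (Finset.mem_insert_self x V)
      rw [Finset.sum_powerset_insert hV]
      have h1 : ∑ S ∈ V.powerset, (if (DTree.node x a b).eval (B ∪ S) = true then
          (-1 : ℤ) ^ S.card else 0) =
          ∑ S ∈ V.powerset, (if a.eval (B ∪ S) = true then (-1 : ℤ) ^ S.card else 0) := by
        refine Finset.sum_congr rfl fun S hS => ?_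
        have hxS : x ∉ S := fun h => hV (Finset.mem_powerset.mp hS h)
        have : x ∉ B ∪ S := by simp [hxB, hxS]
        simp [DTree.eval, this]
      have h2 : ∑ S ∈ V.powerset, (if (DTree.node x a b).eval (B ∪ insert x S) = true then
          (-1 : ℤ) ^ (insert x S).card else 0) =
          - ∑ S ∈ V.powerset, (if b.eval (insert x B ∪ S) = true then (-1 : ℤ) ^ S.card else 0) := by
        rw [← Finset.sum_neg_distrib]
        refine Finset.sum_congr rfl fun S hS => ?_
        have hxS : x ∉ S := fun h => hV (Finset.mem_powerset.mp hS h)
        have e1 : B ∪ insert x S = insert x B ∪ S := by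
          ext y; simp only [Finset.mem_union, Finset.mem_insert]; tauto
        have hin : x ∈ insert x B ∪ S := by simp
        rw [e1]
        simp only [DTree.eval, hin, if_true]
        rw [Finset.card_insert_of_notMem hxS, pow_succ]
        split_ifs <;> simp
      rw [h1, h2, iha V B hVB (by omega), ihb V (insert x B) ?_ (by omega)]
      · simp
      · rw [Finset.disjoint_insert_right]
        exact ⟨hV, hVB⟩
    · by_cases hxB : x ∈ B
      · have : ∀ S ∈ U.powerset, (if (DTree.node x a b).eval (B ∪ S) = true then
            (-1 : ℤ) ^ S.card else 0) =
            (if b.eval (B ∪ S) = true then (-1 : ℤ) ^ S.card else 0) := by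
          intro S _
          have : x ∈ B ∪ S := by simp [hxB]
          simp [DTree.eval, hxB]
        rw [Finset.sum_congr rfl this]
        exact ihb U B hUB (by omega)
      · have : ∀ S ∈ U.powerset, (if (DTree.node x a b).eval (B ∪ S) = true then
            (-1 : ℤ) ^ S.card else 0) =
            (if a.eval (B ∪ S) = true then (-1 : ℤ) ^ S.card else 0) := by
          intro S hS
          have hxS : x ∉ S := fun h => hx (Finset.mem_powerset.mp hS h)
          have : x ∉ B ∪ S := by simp [hxB, hxS]
          simp [DTree.eval, hxB, hxS]
        rw [Finset.sum_congr rfl this]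
        exact iha U B hUB (by omega)

/-- A family computed by a shallow decision tree has signed count zero. -/
lemma wt_eq_zero_of_tree (F : Finset (Finset X)) (T : DTree X)
    (hT : ∀ S, T.eval S = true ↔ S ∈ F) (hd : T.depth < Fintype.card X) : wt F = 0 := by
  have h := sum_eval_aux T Finset.univ ∅ (by simp) (by simpa using hd)
  simp only [Finset.empty_union, hT, Finset.powerset_univ] at h
  rw [wt, ← h, Finset.sum_ite_mem]
  simp

end Pool.Agent.H161R2.Evas
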