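import Mathlib
import Pool.Agent.H161R2.EvasCore

set_option autoImplicit false

set_option linter.unusedSectionVars false

namespace Pool.Agent.H161R2.Evas

open Finset
open scoped Pointwise Classical

variable {X : Type*} [Fintype X] [DecidableEq X]

/-- up-closed -/
def Up (F : Finset (Finset X)) : Prop := ∀ S ∈ F, ∀ T, S ⊆ T → T ∈ F

variable (G : Type*) [Group G] [Fintype G] [MulAction G X]

/-- invariant under the group -/
def IsInv (F : Finset (Finset X)) : Prop := ∀ (g : G), ∀ S ∈ F, g • S ∈ F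

omit [Fintype X] [Fintype G] in
lemma IsInv.smul_mem_iff {F : Finset (Finset X)} (h : IsInv G F) (g : G) (S : Finset X) :
    g • S ∈ F ↔ S ∈ F := by
  constructor
  · intro hS
    have := h g⁻¹ _ hS
    rwa [inv_smul_smul] at this
  · exact h g S

/-- `S` can be toggled at level `k` without changing anything else. -/
def Free (F : Finset (Finset X)) (k : ℕ) (S : Finset X) : Prop :=
  S.card = k ∧ (∀ x, x ∉ S → insert x S ∈ F) ∧ (∀ x ∈ S, S.erase x ∉ F)

omit [Fintype X] [Fintype G] in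
lemma Free.smul {F : Finset (Finset X)} (h : IsInv G F) {k : ℕ} {S : Finset X}
    (hS : Free F k S) (g : G) : Free F k (g • S) := by
  refine ⟨by rw [Finset.card_smul_finset]; exact hS.1, ?_, ?_⟩
  · intro x hx
    have hx' : g⁻¹ • x ∉ S := by
      intro h'
      exact hx (Finset.mem_smul_finset.mpr ⟨_, h', smul_inv_smul g x⟩)
    have e : insert x (g • S) = g • (insert (g⁻¹ • x) S) := by
      rw [Finset.smul_finset_insert, smul_inv_smul]
    rw [e, h.smul_mem_iff]
    exact hS.2.1 _ hx'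
  · intro x hx
    obtain ⟨y, hy, rfl⟩ := Finset.mem_smul_finset.mp hx
    have e : (g • S).erase (g • y) = g • (S.erase y) := by
      ext z
      simp only [Finset.mem_erase, Finset.mem_smul_finset]
      constructor
      · rintro ⟨hz, w, hw, rfl⟩
        exact ⟨w, ⟨fun h => hz (by rw [h]), hw⟩, rfl⟩
      · rintro ⟨w, ⟨hw1, hw⟩, rfl⟩
        exact ⟨fun h => hw1 (smul_left_cancel g h), w, hw, rfl⟩
    rw [e, h.smul_mem_iff]
    exact hS.2.2 _ hy

/-- the orbit -/
def orb (S : Finset X) : Finset (Finset X) := Finset.univ.image (fun g : G => g • S)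

omit [Fintype X] in
lemma mem_orb {S T : Finset X} : T ∈ orb G S ↔ ∃ g : G, g • S = T := by
  simp [orb]

omit [Fintype X] in
lemma self_mem_orb (S : Finset X) : S ∈ orb G S := (mem_orb G).mpr ⟨1, one_smul G S⟩

omit [Fintype X] in
lemma orb_eq {S T : Finset X} (h : T ∈ orb G S) : orb G T = orb G S := by
  obtain ⟨g, rfl⟩ := (mem_orb G).mp h
  ext U
  simp only [mem_orb]
  constructor
  · rintro ⟨a, rfl⟩; exact ⟨a * g, mul_smul a g S⟩
  · rintro ⟨a, rfl⟩; exact ⟨a * g⁻¹, by rw [← mul_smul]; simp⟩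

/-- orbits of free sets -/
noncomputable def freeOrbs (F : Finset (Finset X)) (k : ℕ) : Finset (Finset (Finset X)) :=
  (Finset.univ.filter (Free F k)).image (orb G)

/-- remove the free sets of level `k` -/
noncomputable def core (F : Finset (Finset X)) (k : ℕ) : Finset (Finset X) :=
  F.filter (fun S => ¬ Free F k S)

omit [Fintype X] in
lemma mem_core_of_card {F : Finset (Finset X)} {k : ℕ} {S : Finset X} (h : S.card ≠ k) :
    S ∈ core F k ↔ S ∈ F := by
  simp only [core, Finset.mem_filter, and_iff_left_iff_imp]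
  exact fun _ hf => h hf.1

/-- freeness depends only on the other levels -/
lemma free_congr {F F' : Finset (Finset X)} {k : ℕ}
    (h : ∀ S : Finset X, S.card ≠ k → (S ∈ F ↔ S ∈ F')) (S : Finset X) :
    Free F k S ↔ Free F' k S := by
  have key : ∀ {A B : Finset (Finset X)}, (∀ S : Finset X, S.card ≠ k → (S ∈ A ↔ S ∈ B)) →
      Free A k S → Free B k S := by
    intro A B hAB hS
    refine ⟨hS.1, fun x hx => ?_, fun x hx hm => ?_⟩
    · rw [← hAB _ (by rw [Finset.card_insert_of_notMem hx, hS.1]; omega)]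
      exact hS.2.1 x hx
    · refine hS.2.2 x hx ((hAB _ ?_).mpr hm)
      have : 0 < S.card := Finset.card_pos.mpr ⟨x, hx⟩
      rw [Finset.card_erase_of_mem hx, hS.1]
      have := hS.1
      omega
  exact ⟨key h, key fun S hS => (h S hS).symm⟩

lemma free_core {F : Finset (Finset X)} {k : ℕ} (S : Finset X) :
    Free (core F k) k S ↔ Free F k S :=
  free_congr (fun _ hT => mem_core_of_card hT) S

lemma core_up {F : Finset (Finset X)} {k : ℕ} (h : Up F) : Up (core F k) := by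
  intro S hS T hST
  simp only [core, Finset.mem_filter] at hS ⊢
  refine ⟨h S hS.1 T hST, fun hT => ?_⟩
  rcases eq_or_ne S T with rfl | hne
  · exact hS.2 hT
  · obtain ⟨x, hxT, hxS⟩ := Finset.exists_of_ssubset (Finset.ssubset_iff_subset_ne.mpr ⟨hST, hne⟩)
    refine hT.2.2 x hxT (h S hS.1 _ ?_)
    intro y hy
    exact Finset.mem_erase.mpr ⟨fun e => hxS (e ▸ hy), hST hy⟩

lemma core_inv {F : Finset (Finset X)} {k : ℕ} (h : IsInv G F) : IsInv G (core F k) := by
  intro g S hS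
  simp only [core, Finset.mem_filter] at hS ⊢
  refine ⟨h g S hS.1, fun hf => hS.2 ?_⟩
  have := hf.smul G h g⁻¹
  rwa [inv_smul_smul] at this

lemma freeOrbs_core (F : Finset (Finset X)) (k : ℕ) :
    freeOrbs G (core F k) k = freeOrbs G F k := by
  unfold freeOrbs
  congr 1
  ext S
  simp [free_core]

lemma mem_freeOrbs {F : Finset (Finset X)} {k : ℕ} {O : Finset (Finset X)} :
    O ∈ freeOrbs G F k ↔ ∃ S, Free F k S ∧ orb G S = O := by
  simp [freeOrbs]

lemma free_of_mem_freeOrbs {F : Finset (Finset X)} {k : ℕ} (h : IsInv G F)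
    {O : Finset (Finset X)} (hO : O ∈ freeOrbs G F k) {S : Finset X} (hS : S ∈ O) :
    Free F k S ∧ orb G S = O := by
  obtain ⟨T, hT, rfl⟩ := (mem_freeOrbs G).mp hO
  obtain ⟨g, rfl⟩ := (mem_orb G).mp hS
  exact ⟨hT.smul G h g, orb_eq G hS⟩

/-- the extension of a core by a set of free orbits -/
def ext (C : Finset (Finset X)) (𝒜 : Finset (Finset (Finset X))) : Finset (Finset X) :=
  C ∪ 𝒜.biUnion id

section fiber
variable {C : Finset (Finset X)} {k : ℕ} {𝒜 : Finset (Finset (Finset X))}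

lemma mem_ext_of_card (hI : IsInv G C) (h𝒜 : 𝒜 ⊆ freeOrbs G C k) {S : Finset X}
    (hS : S.card ≠ k) : S ∈ C ↔ S ∈ ext C 𝒜 := by
  simp only [ext, Finset.mem_union, Finset.mem_biUnion, id]
  constructor
  · exact Or.inl
  · rintro (h | ⟨O, hO, h⟩)
    · exact h
    · exact absurd (free_of_mem_freeOrbs G hI (h𝒜 hO) h).1.1 hS

lemma free_ext (hI : IsInv G C) (h𝒜 : 𝒜 ⊆ freeOrbs G C k) (S : Finset X) :
    Free (ext C 𝒜) k S ↔ Free C k S :=
  free_congr (fun _ hT => (mem_ext_of_card G hI h𝒜 hT).symm) S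

lemma ext_inv (hI : IsInv G C) (h𝒜 : 𝒜 ⊆ freeOrbs G C k) : IsInv G (ext C 𝒜) := by
  intro g S hS
  simp only [ext, Finset.mem_union, Finset.mem_biUnion, id] at hS ⊢
  rcases hS with h | ⟨O, hO, h⟩
  · exact Or.inl (hI g S h)
  · right
    refine ⟨O, hO, ?_⟩
    rw [← (free_of_mem_freeOrbs G hI (h𝒜 hO) h).2]
    exact (mem_orb G).mpr ⟨g, rfl⟩

lemma ext_up (hU : Up C) (hI : IsInv G C) (h𝒜 : 𝒜 ⊆ freeOrbs G C k) : Up (ext C 𝒜) := by
  intro S hS T hST
  rcases eq_or_ne S T with rfl | hne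
  · exact hS
  simp only [ext, Finset.mem_union, Finset.mem_biUnion, id] at hS ⊢
  left
  rcases hS with h | ⟨O, hO, h⟩
  · exact hU S h T hST
  · obtain ⟨x, hxT, hxS⟩ := Finset.exists_of_ssubset (Finset.ssubset_iff_subset_ne.mpr ⟨hST, hne⟩)
    refine hU (insert x S) ((free_of_mem_freeOrbs G hI (h𝒜 hO) h).1.2.1 x hxS) T ?_
    exact Finset.insert_subset hxT hST

lemma core_ext (hI : IsInv G C) (hC : ∀ S ∈ C, ¬ Free C k S) (h𝒜 : 𝒜 ⊆ freeOrbs G C k) :
    core (ext C 𝒜) k = C := by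
  ext S
  simp only [core, Finset.mem_filter, free_ext G hI h𝒜]
  simp only [ext, Finset.mem_union, Finset.mem_biUnion, id]
  constructor
  · rintro ⟨h | ⟨O, hO, h⟩, hf⟩
    · exact h
    · exact absurd (free_of_mem_freeOrbs G hI (h𝒜 hO) h).1 hf
  · exact fun h => ⟨Or.inl h, hC S h⟩

lemma eq_ext {F : Finset (Finset X)} (hI : IsInv G F) :
    F = ext (core F k) ((freeOrbs G (core F k) k).filter (fun O => O ⊆ F)) := by
  ext S
  simp only [ext, Finset.mem_union, Finset.mem_biUnion, id, Finset.mem_filter]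
  constructor
  · intro h
    by_cases hf : Free F k S
    · right
      refine ⟨orb G S, ⟨?_, ?_⟩, self_mem_orb G S⟩
      · rw [freeOrbs_core]
        exact (mem_freeOrbs G).mpr ⟨S, hf, rfl⟩
      · intro T hT
        obtain ⟨g, rfl⟩ := (mem_orb G).mp hT
        exact hI g S h
    · left
      simp [core, h, hf]
  · rintro (h | ⟨O, ⟨_, hO⟩, h⟩)
    · exact (Finset.mem_filter.mp h).1
    · exact hO h

lemma ext_injOn (hI : IsInv G C) (hC : ∀ S ∈ C, ¬ Free C k S) {𝒜 ℬ : Finset (Finset (Finset X))}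
    (h𝒜 : 𝒜 ⊆ freeOrbs G C k) (hℬ : ℬ ⊆ freeOrbs G C k) (h : ext C 𝒜 = ext C ℬ) : 𝒜 ⊆ ℬ := by
  intro O hO
  obtain ⟨S, hS, rfl⟩ := (mem_freeOrbs G).mp (h𝒜 hO)
  have h1 : S ∈ ext C 𝒜 := by
    simp only [ext, Finset.mem_union, Finset.mem_biUnion, id]
    exact Or.inr ⟨_, hO, self_mem_orb G S⟩
  rw [h] at h1
  simp only [ext, Finset.mem_union, Finset.mem_biUnion, id] at h1
  rcases h1 with h1 | ⟨O', hO', h1⟩
  · exact absurd hS (hC S h1)
  · rw [(free_of_mem_freeOrbs G hI (hℬ hO') h1).2]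
    exact hO'

lemma wt_ext (hI : IsInv G C) (hC : ∀ S ∈ C, ¬ Free C k S) (h𝒜 : 𝒜 ⊆ freeOrbs G C k) :
    wt (ext C 𝒜) = wt C + (-1) ^ k * ((∑ O ∈ 𝒜, O.card : ℕ) : ℤ) := by
  have hd : Disjoint C (𝒜.biUnion id) := by
    rw [Finset.disjoint_left]
    intro S hS h
    simp only [Finset.mem_biUnion, id] at h
    obtain ⟨O, hO, h⟩ := h
    exact hC S hS (free_of_mem_freeOrbs G hI (h𝒜 hO) h).1
  rw [wt, ext, Finset.sum_union hd, ← wt]
  congr 1
  rw [Finset.sum_biUnion]
  · push_cast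
    rw [Finset.mul_sum]
    refine Finset.sum_congr rfl fun O hO => ?_
    simp only [id]
    rw [Finset.sum_congr rfl (g := fun _ => (-1 : ℤ) ^ k)]
    · simp [mul_comm]
    · intro S hS
      rw [(free_of_mem_freeOrbs G hI (h𝒜 hO) hS).1.1]
  · intro O hO O' hO' hne
    simp only [Function.onFun, id]
    rw [Finset.disjoint_left]
    intro S hS hS'
    exact hne ((free_of_mem_freeOrbs G hI (h𝒜 hO) hS).2.symm.trans
      (free_of_mem_freeOrbs G hI (h𝒜 hO') hS').2)

end fiber

end Pool.Agent.H161R2.Evas
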