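import Mathlib
import Pool.Agent.H161R2.EvasOrb

set_option autoImplicit false
set_option linter.unusedSectionVars false

namespace Pool.Agent.H161R2.Evas

open Finset
open scoped Pointwise Classical

lemma cb_bound (m : ℕ) : (2 * m + 1) * m.centralBinom ^ 2 ≤ 16 ^ m := by
  induction m with
  | zero => simp
  | succ m ih =>
    have h := Nat.succ_mul_centralBinom_succ m
    have h2 : (m + 1) ^ 2 * ((2 * (m + 1) + 1) * (m + 1).centralBinom ^ 2) ≤
        (m + 1) ^ 2 * 16 ^ (m + 1) := by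
      calc (m + 1) ^ 2 * ((2 * (m + 1) + 1) * (m + 1).centralBinom ^ 2)
          = (2 * m + 3) * ((m + 1) * (m + 1).centralBinom) ^ 2 := by ring
        _ = (2 * m + 3) * (2 * (2 * m + 1) * m.centralBinom) ^ 2 := by rw [h]
        _ = 4 * ((2 * m + 3) * (2 * m + 1)) * ((2 * m + 1) * m.centralBinom ^ 2) := by ring
        _ ≤ 4 * (4 * (m + 1) ^ 2) * 16 ^ m := by
            refine Nat.mul_le_mul (Nat.mul_le_mul_left 4 (by nlinarith)) ih
        _ = (m + 1) ^ 2 * 16 ^ (m + 1) := by ring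
    exact Nat.le_of_mul_le_mul_left h2 (by positivity)

lemma choose_half_bound (a : ℕ) : (a + 1) * (a.choose (a / 2)) ^ 2 ≤ 4 ^ a := by
  rcases Nat.even_or_odd' a with ⟨m, rfl | rfl⟩
  · have := cb_bound m
    rw [Nat.centralBinom] at this
    have e : 2 * m / 2 = m := by omega
    rw [e]
    calc _ ≤ 16 ^ m := this
      _ = 4 ^ (2 * m) := by rw [pow_mul]; norm_num
  · have := cb_bound (m + 1)
    have e : (2 * m + 1) / 2 = m := by omega
    have hc : (m + 1).centralBinom = 2 * (2 * m + 1).choose m := by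
      rw [Nat.centralBinom, show 2 * (m + 1) = (2 * m + 1) + 1 by ring, Nat.choose_succ_succ,
        Nat.choose_symm_half]
      ring
    rw [hc] at this
    rw [e]
    have h4 : (16 : ℕ) ^ (m + 1) = 4 * 4 ^ (2 * m + 1) := by
      rw [show (16 : ℕ) = 4 ^ 2 by norm_num, ← pow_mul, ← pow_succ']
      congr 1
    rw [h4] at this
    nlinarith [this, Nat.zero_le (((2 * m + 1).choose m) ^ 2)]

lemma choose_half_real (a : ℕ) : (a.choose (a / 2) : ℝ) * √(a + 1) ≤ 2 ^ a := by
  have h : ((a : ℝ) + 1) * (a.choose (a / 2) : ℝ) ^ 2 ≤ 4 ^ a := by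
    exact_mod_cast choose_half_bound a
  have h2 : ((a.choose (a / 2) : ℝ) * √(a + 1)) ^ 2 ≤ (2 ^ a) ^ 2 := by
    rw [mul_pow, Real.sq_sqrt (by positivity), ← pow_mul, mul_comm a 2, pow_mul]
    norm_num
    linarith
  exact le_of_sq_le_sq h2 (by positivity) |> fun h => h

variable {X : Type*} [Fintype X] [DecidableEq X]
variable (G : Type*) [Group G] [Fintype G] [MulAction G X]

/-- all invariant up-closed families -/
noncomputable def goods : Finset (Finset (Finset X)) :=
  Finset.univ.filter (fun F => Up F ∧ IsInv G F)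

lemma mem_goods {F : Finset (Finset X)} : F ∈ goods G ↔ Up F ∧ IsInv G F := by simp [goods]

lemma fiber_eq {C : Finset (Finset X)} {k : ℕ} (hg : C ∈ goods G)
    (hC : ∀ S ∈ C, ¬ Free C k S) :
    (goods G).filter (fun F => core F k = C) = (freeOrbs G C k).powerset.image (ext C) := by
  rw [mem_goods] at hg
  ext F
  simp only [Finset.mem_filter, Finset.mem_image, Finset.mem_powerset, mem_goods]
  constructor
  · rintro ⟨⟨hU, hI⟩, rfl⟩
    exact ⟨_, Finset.filter_subset _ _, (eq_ext G hI).symm⟩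
  · rintro ⟨𝒜, h𝒜, rfl⟩
    exact ⟨⟨ext_up G hg.1 hg.2 h𝒜, ext_inv G hg.2 h𝒜⟩, core_ext G hg.2 hC h𝒜⟩

lemma fiber_card {C : Finset (Finset X)} {k : ℕ} (hg : C ∈ goods G)
    (hC : ∀ S ∈ C, ¬ Free C k S) :
    ((goods G).filter (fun F => core F k = C)).card = 2 ^ (freeOrbs G C k).card := by
  rw [fiber_eq G hg hC, Finset.card_image_of_injOn, Finset.card_powerset]
  intro 𝒜 h𝒜 ℬ hℬ h
  simp only [Finset.coe_powerset, Set.mem_preimage, Set.mem_powerset_iff, Finset.coe_subset] at h𝒜 hℬ
  exact Finset.Subset.antisymm (ext_injOn G ((mem_goods G).mp hg).2 hC h𝒜 hℬ h)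
    (ext_injOn G ((mem_goods G).mp hg).2 hC hℬ h𝒜 h.symm)

/-- Littlewood-Offord-Erdos on the powerset of `A` -/
lemma sperner_sum {α : Type*} [DecidableEq α] (A : Finset α) (w : α → ℕ) (hw : ∀ O ∈ A, 0 < w O)
    (c : ℕ) : (A.powerset.filter (fun 𝒜 => ∑ O ∈ 𝒜, w O = c)).card ≤
      A.card.choose (A.card / 2) := by
  set B : Finset (Finset A) := Finset.univ.filter (fun s => ∑ O ∈ s, w O.1 = c) with hB
  have h1 : (A.powerset.filter (fun 𝒜 => ∑ O ∈ 𝒜, w O = c)).card ≤ B.card := by
    refine Finset.card_le_card_of_injOn (fun 𝒜 => 𝒜.subtype (· ∈ A)) ?_ ?_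
    · intro 𝒜 h𝒜
      simp only [Finset.coe_filter, Finset.mem_powerset, Set.mem_ofPred_eq] at h𝒜
      simp only [hB, Finset.coe_filter, Finset.mem_univ, true_and, Set.mem_ofPred_eq]
      rw [Finset.sum_subtype_of_mem (f := w) (fun x hx => h𝒜.1 hx)]
      exact h𝒜.2
    · intro 𝒜 h𝒜 ℬ hℬ h
      simp only [Finset.coe_filter, Finset.mem_powerset, Set.mem_ofPred_eq] at h𝒜 hℬ
      dsimp only at h
      ext x
      constructor
      · intro hx
        have : (⟨x, h𝒜.1 hx⟩ : A) ∈ 𝒜.subtype (· ∈ A) := by simpa using hx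
        rw [h] at this
        simpa using this
      · intro hx
        have : (⟨x, hℬ.1 hx⟩ : A) ∈ ℬ.subtype (· ∈ A) := by simpa using hx
        rw [← h] at this
        simpa using this
  have h2 : IsAntichain (· ⊆ ·) (B : Set (Finset A)) := by
    intro s hs t ht hne hst
    simp only [hB, Finset.coe_filter, Finset.mem_univ, true_and, Set.mem_ofPred_eq] at hs ht
    obtain ⟨x, hxt, hxs⟩ := Finset.exists_of_ssubset (Finset.ssubset_iff_subset_ne.mpr ⟨hst, hne⟩)
    have : ∑ O ∈ s, w O.1 < ∑ O ∈ t, w O.1 :=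
      Finset.sum_lt_sum_of_subset hst hxt hxs (hw x.1 x.2) (fun _ _ _ => Nat.zero_le _)
    omega
  have h3 := h2.sperner
  simpa using h1.trans h3

lemma fiber_bad {C : Finset (Finset X)} {k : ℕ} (hg : C ∈ goods G)
    (hC : ∀ S ∈ C, ¬ Free C k S) :
    (((goods G).filter (fun F => core F k = C)).filter (fun F => wt F = 0)).card ≤
      (freeOrbs G C k).card.choose ((freeOrbs G C k).card / 2) := by
  have hI := ((mem_goods G).mp hg).2
  by_cases hne : ∃ 𝒜, 𝒜 ⊆ freeOrbs G C k ∧ wt (ext C 𝒜) = 0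
  · obtain ⟨𝒜₀, h𝒜₀, hw₀⟩ := hne
    refine le_trans ?_ (sperner_sum (freeOrbs G C k) (fun O => O.card) ?_ (∑ O ∈ 𝒜₀, O.card))
    · rw [fiber_eq G hg hC]
      refine (Finset.card_le_card (t := ((freeOrbs G C k).powerset.filter
        (fun 𝒜 => ∑ O ∈ 𝒜, O.card = ∑ O ∈ 𝒜₀, O.card)).image (ext C)) ?_).trans
        Finset.card_image_le
      intro F hF
      simp only [Finset.mem_filter, Finset.mem_image, Finset.mem_powerset] at hF ⊢
      obtain ⟨⟨𝒜, h𝒜, rfl⟩, hw⟩ := hF
      refine ⟨𝒜, ⟨h𝒜, ?_⟩, rfl⟩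
      rw [wt_ext G hI hC h𝒜] at hw
      rw [wt_ext G hI hC h𝒜₀] at hw₀
      have h1 : (-1 : ℤ) ^ k * ((∑ O ∈ 𝒜, O.card : ℕ) : ℤ) =
        (-1 : ℤ) ^ k * ((∑ O ∈ 𝒜₀, O.card : ℕ) : ℤ) := by linarith
      have h2 := mul_left_cancel₀ (pow_ne_zero k (by norm_num : (-1 : ℤ) ≠ 0)) h1
      exact_mod_cast h2
    · intro O hO
      obtain ⟨S, _, rfl⟩ := (mem_freeOrbs G).mp hO
      exact Finset.card_pos.mpr ⟨S, self_mem_orb G S⟩
  · rw [Finset.card_eq_zero.mpr]
    · exact Nat.zero_le _
    · rw [fiber_eq G hg hC]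
      ext F
      simp only [Finset.mem_filter, Finset.mem_image, Finset.mem_powerset, Finset.notMem_empty,
        iff_false]
      rintro ⟨⟨𝒜, h𝒜, rfl⟩, hw⟩
      exact hne ⟨𝒜, h𝒜, hw⟩

lemma core_mem_goods {F : Finset (Finset X)} (k : ℕ) (hF : F ∈ goods G) : core F k ∈ goods G := by
  rw [mem_goods] at hF ⊢
  exact ⟨core_up hF.1, core_inv G hF.2⟩

lemma core_not_free (F : Finset (Finset X)) (k : ℕ) : ∀ S ∈ core F k, ¬ Free (core F k) k S := by
  intro S hS
  rw [free_core]
  exact (Finset.mem_filter.mp hS).2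

/-- bad families with many free orbits on level `k` -/
lemma level_bound (k s : ℕ) :
    ((((goods G : Finset (Finset (Finset X)))).filter (fun F => wt F = 0 ∧
      s ≤ (freeOrbs G F k).card)).card : ℝ) * √(s + 1) ≤
      ((goods G : Finset (Finset (Finset X))).card : ℝ) := by
  set cores : Finset (Finset (Finset X)) := (goods G).image (fun F => core F k) with hcores
  have hmap : ∀ F ∈ (goods G : Finset (Finset (Finset X))), core F k ∈ cores :=
    fun F hF => Finset.mem_image_of_mem _ hF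
  have e1 : ((goods G : Finset (Finset (Finset X)))).card =
      ∑ C ∈ cores, ((goods G).filter (fun F => core F k = C)).card :=
    Finset.card_eq_sum_card_fiberwise hmap
  have e2 : (((goods G : Finset (Finset (Finset X)))).filter (fun F => wt F = 0 ∧
      s ≤ (freeOrbs G F k).card)).card = ∑ C ∈ cores, ((((goods G).filter (fun F => wt F = 0 ∧
      s ≤ (freeOrbs G F k).card))).filter (fun F => core F k = C)).card :=
    Finset.card_eq_sum_card_fiberwise (fun F hF => hmap F (Finset.mem_filter.mp hF).1)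
  rw [e1, e2]
  push_cast
  rw [Finset.sum_mul]
  refine Finset.sum_le_sum fun C hC => ?_
  obtain ⟨F₀, hF₀, rfl⟩ := Finset.mem_image.mp hC
  have hg := core_mem_goods G k hF₀
  have hnf := core_not_free F₀ k
  by_cases hs : s ≤ (freeOrbs G (core F₀ k) k).card
  · have h1 : ((((goods G).filter (fun F => wt F = 0 ∧
      s ≤ (freeOrbs G F k).card))).filter (fun F => core F k = core F₀ k)).card ≤
      (freeOrbs G (core F₀ k) k).card.choose ((freeOrbs G (core F₀ k) k).card / 2) := by
      refine le_trans (Finset.card_le_card ?_) (fiber_bad G hg hnf)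
      intro F hF
      simp only [Finset.mem_filter] at hF ⊢
      exact ⟨⟨hF.1.1, hF.2⟩, hF.1.2.1⟩
    rw [fiber_card G hg hnf]
    calc _ ≤ ((freeOrbs G (core F₀ k) k).card.choose ((freeOrbs G (core F₀ k) k).card / 2) : ℝ) *
          √((freeOrbs G (core F₀ k) k).card + 1) := by
            refine mul_le_mul (by exact_mod_cast h1) (Real.sqrt_le_sqrt ?_) (Real.sqrt_nonneg _)
              (Nat.cast_nonneg _)
            have : (s : ℝ) ≤ (freeOrbs G (core F₀ k) k).card := by exact_mod_cast hs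
            linarith
      _ ≤ 2 ^ (freeOrbs G (core F₀ k) k).card := choose_half_real _
      _ = _ := by push_cast; rfl
  · have h0 : ((((goods G).filter (fun F => wt F = 0 ∧
      s ≤ (freeOrbs G F k).card))).filter (fun F => core F k = core F₀ k)) = ∅ := by
      ext F
      simp only [Finset.mem_filter, Finset.notMem_empty, iff_false]
      rintro ⟨⟨_, _, h⟩, he⟩
      apply hs
      rw [← he, freeOrbs_core]
      exact h
    rw [h0]
    simp

end Pool.Agent.H161R2.Evas
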