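import Mathlib
import Pool.Agent.H161R2.EvasCount

set_option autoImplicit false
set_option linter.unusedSectionVars false

namespace Pool.Agent.H161R2.Evas

open Finset
open scoped Pointwise Classical

/-- number of small subfamilies of a finite type -/
lemma small_subsets {T : Type*} [Fintype T] [DecidableEq T] (t : ℕ) :
    ((Finset.univ : Finset (Finset T)).filter (fun 𝒜 => 𝒜.card ≤ t)).card ≤
      (Fintype.card T + 1) ^ t := by
  have h : (Finset.univ : Finset (Finset T)).filter (fun 𝒜 => 𝒜.card ≤ t) ⊆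
      (Finset.univ : Finset (Fin t → Option T)).image
        (fun f => Finset.univ.filter (fun x => ∃ i, f i = some x)) := by
    intro 𝒜 h𝒜
    simp only [Finset.mem_filter, Finset.mem_univ, true_and] at h𝒜
    refine Finset.mem_image.mpr ⟨fun i => if h : i.1 < 𝒜.card then
      some ((𝒜.equivFin.symm ⟨i.1, h⟩ : 𝒜) : T) else none, Finset.mem_univ _, ?_⟩
    ext x
    simp only [Finset.mem_filter, Finset.mem_univ, true_and]
    constructor
    · rintro ⟨i, hi⟩
      split_ifs at hi with h
      · have := Option.some.inj hi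
        rw [← this]
        exact (𝒜.equivFin.symm ⟨i.1, h⟩).2
    · intro hx
      refine ⟨⟨(𝒜.equivFin ⟨x, hx⟩).1, lt_of_lt_of_le (𝒜.equivFin ⟨x, hx⟩).2 h𝒜⟩, ?_⟩
      simp
  calc _ ≤ _ := Finset.card_le_card h
    _ ≤ _ := Finset.card_image_le
    _ = _ := by simp [Fintype.card_option]

variable {X : Type*} [Fintype X] [DecidableEq X]
variable (G : Type*) [Group G] [Fintype G] [MulAction G X]

/-- minimal members -/
def IsMin (F : Finset (Finset X)) (S : Finset X) : Prop := S ∈ F ∧ ∀ x ∈ S, S.erase x ∉ F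

/-- orbits of minimal members -/
noncomputable def minOrbs (F : Finset (Finset X)) : Finset (Finset (Finset X)) :=
  (Finset.univ.filter (IsMin F)).image (orb G)

lemma exists_min {F : Finset (Finset X)} {S : Finset X} (hS : S ∈ F) :
    ∃ T, T ⊆ S ∧ IsMin F T := by
  induction h : S.card using Nat.strong_induction_on generalizing S with
  | _ n ih =>
    by_cases hm : IsMin F S
    · exact ⟨S, Finset.Subset.refl S, hm⟩
    · simp only [IsMin, hS, true_and, not_forall, not_not] at hm
      obtain ⟨x, hx, hxF⟩ := hm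
      obtain ⟨T, hT, hTm⟩ := ih (S.erase x).card
        (by rw [← h]; exact Finset.card_erase_lt_of_mem hx) hxF rfl
      exact ⟨T, hT.trans (Finset.erase_subset _ _), hTm⟩

lemma minOrbs_injOn {F F' : Finset (Finset X)} (hF : F ∈ goods G) (hF' : F' ∈ goods G)
    (h : minOrbs G F = minOrbs G F') : F ⊆ F' := by
  rw [mem_goods] at hF hF'
  intro S hS
  obtain ⟨T, hTS, hT⟩ := exists_min hS
  have h1 : orb G T ∈ minOrbs G F := by
    simp only [minOrbs, Finset.mem_image, Finset.mem_filter, Finset.mem_univ, true_and]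
    exact ⟨T, hT, rfl⟩
  rw [h] at h1
  simp only [minOrbs, Finset.mem_image, Finset.mem_filter, Finset.mem_univ, true_and] at h1
  obtain ⟨T', hT', he⟩ := h1
  have : T ∈ orb G T' := by rw [he]; exact self_mem_orb G T
  obtain ⟨g, rfl⟩ := (mem_orb G).mp this
  exact hF'.1 _ (hF'.2 g _ hT'.1) S hTS

lemma minOrbs_subset {F : Finset (Finset X)} (hF : F ∈ goods G) :
    minOrbs G F ⊆ (Finset.range (Fintype.card X + 1)).biUnion (fun k => freeOrbs G F k) := by
  rw [mem_goods] at hF
  intro O hO
  simp only [minOrbs, Finset.mem_image, Finset.mem_filter, Finset.mem_univ, true_and] at hO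
  obtain ⟨S, hS, rfl⟩ := hO
  refine Finset.mem_biUnion.mpr ⟨S.card, ?_, (mem_freeOrbs G).mpr ⟨S, ⟨rfl, ?_, hS.2⟩, rfl⟩⟩
  · rw [Finset.mem_range]
    have := Finset.card_le_univ S
    omega
  · exact fun x _ => hF.1 S hS.1 _ (Finset.subset_insert x S)

/-- families with fewer than `s` free orbits on every level -/
noncomputable def fewSet (s : ℕ) : Finset (Finset (Finset X)) :=
  (goods G : Finset (Finset (Finset X))).filter (fun F =>
      ∀ k ∈ Finset.range (Fintype.card X + 1), (freeOrbs G F k).card < s)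

lemma mem_fewSet (s : ℕ) (F : Finset (Finset X)) : F ∈ fewSet G s ↔ F ∈ goods G ∧
    ∀ k ∈ Finset.range (Fintype.card X + 1), (freeOrbs G F k).card < s := by
  simp only [fewSet, Finset.mem_filter]

/-- few families have few free orbits on every level -/
lemma few_bound (s : ℕ) :
    (fewSet (X := X) G s).card ≤
      2 ^ ((Fintype.card X + 1) * ((Fintype.card X + 1) * s)) := by
  set N := Fintype.card X with hN
  set 𝒯 : Finset (Finset (Finset X)) := Finset.univ.image (orb G) with h𝒯
  have h𝒯c : 𝒯.card ≤ 2 ^ N := by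
    refine Finset.card_image_le.trans ?_
    simp [hN]
  have hsub : ∀ F, minOrbs G F ⊆ 𝒯 := by
    intro F O hO
    simp only [minOrbs, Finset.mem_image, Finset.mem_filter, Finset.mem_univ, true_and] at hO
    obtain ⟨S, _, rfl⟩ := hO
    exact Finset.mem_image_of_mem _ (Finset.mem_univ S)
  have h1 : (fewSet (X := X) G s).card ≤
      ((Finset.univ : Finset (Finset 𝒯)).filter (fun 𝒜 => 𝒜.card ≤ (N + 1) * s)).card := by
    refine Finset.card_le_card_of_injOn (fun F => (minOrbs G F).subtype (· ∈ 𝒯)) ?_ ?_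
    · intro F hF
      rw [Finset.mem_coe, mem_fewSet] at hF
      simp only [Finset.coe_filter, Finset.mem_univ, true_and, Set.mem_ofPred_eq]
      rw [Finset.card_subtype, Finset.filter_true_of_mem (fun x hx => hsub F hx)]
      calc (minOrbs G F).card ≤ _ := Finset.card_le_card (minOrbs_subset G hF.1)
        _ ≤ ∑ k ∈ Finset.range (N + 1), (freeOrbs G F k).card := Finset.card_biUnion_le
        _ ≤ ∑ _k ∈ Finset.range (N + 1), s := Finset.sum_le_sum fun k hk => (hF.2 k hk).le
        _ = (N + 1) * s := by simp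
    · intro F hF F' hF' h
      rw [Finset.mem_coe, mem_fewSet] at hF hF'
      dsimp only at h
      have h' : minOrbs G F = minOrbs G F' := by
        ext x
        constructor
        · intro hx
          have : (⟨x, hsub F hx⟩ : 𝒯) ∈ (minOrbs G F).subtype (· ∈ 𝒯) := by simpa using hx
          rw [h] at this
          simpa using this
        · intro hx
          have : (⟨x, hsub F' hx⟩ : 𝒯) ∈ (minOrbs G F').subtype (· ∈ 𝒯) := by simpa using hx
          rw [← h] at this
          simpa using this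
      exact Finset.Subset.antisymm (minOrbs_injOn G hF.1 hF'.1 h')
        (minOrbs_injOn G hF'.1 hF.1 h'.symm)
  refine h1.trans ((small_subsets _).trans ?_)
  rw [show 2 ^ ((N + 1) * ((N + 1) * s)) = (2 ^ (N + 1)) ^ ((N + 1) * s) from pow_mul _ _ _]
  refine Nat.pow_le_pow_left ?_ _
  have : Fintype.card 𝒯 = 𝒯.card := Fintype.card_coe 𝒯
  rw [this, pow_succ]
  have : 1 ≤ 2 ^ N := Nat.one_le_two_pow
  omega

/-- many invariant up-closed families -/
lemma goods_lower (k : ℕ) : ∃ a : ℕ, 2 ^ a ≤ (goods G : Finset (Finset (Finset X))).card ∧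
    (Fintype.card X).choose k ≤ a * Fintype.card G := by
  set C : Finset (Finset X) := Finset.univ.filter (fun S => k < S.card) with hC
  have hfree : ∀ S, Free C k S ↔ S.card = k := by
    intro S
    constructor
    · exact fun h => h.1
    · intro h
      refine ⟨h, fun x hx => ?_, fun x hx hm => ?_⟩
      · simp only [hC, Finset.mem_filter, Finset.mem_univ, true_and]
        rw [Finset.card_insert_of_notMem hx]; omega
      · simp only [hC, Finset.mem_filter, Finset.mem_univ, true_and] at hm
        rw [Finset.card_erase_of_mem hx] at hm; omega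
  have hg : C ∈ goods G := by
    rw [mem_goods]
    constructor
    · intro S hS T hST
      simp only [hC, Finset.mem_filter, Finset.mem_univ, true_and] at hS ⊢
      exact lt_of_lt_of_le hS (Finset.card_le_card hST)
    · intro g S hS
      simp only [hC, Finset.mem_filter, Finset.mem_univ, true_and] at hS ⊢
      rwa [Finset.card_smul_finset]
  have hnf : ∀ S ∈ C, ¬ Free C k S := by
    intro S hS hf
    rw [hfree] at hf
    simp only [hC, Finset.mem_filter, Finset.mem_univ, true_and] at hS
    omega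
  refine ⟨(freeOrbs G C k).card, ?_, ?_⟩
  · rw [← fiber_card G hg hnf]
    exact Finset.card_le_card (Finset.filter_subset _ _)
  · have h1 : (Finset.univ : Finset X).powersetCard k ⊆ (freeOrbs G C k).biUnion id := by
      intro S hS
      rw [Finset.mem_powersetCard] at hS
      exact Finset.mem_biUnion.mpr ⟨orb G S, (mem_freeOrbs G).mpr ⟨S, (hfree S).mpr hS.2, rfl⟩,
        self_mem_orb G S⟩
    calc (Fintype.card X).choose k = ((Finset.univ : Finset X).powersetCard k).card := by
          rw [Finset.card_powersetCard, Finset.card_univ]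
      _ ≤ _ := Finset.card_le_card h1
      _ ≤ ∑ O ∈ freeOrbs G C k, (id O).card := Finset.card_biUnion_le
      _ ≤ ∑ _O ∈ freeOrbs G C k, Fintype.card G := by
          refine Finset.sum_le_sum fun O hO => ?_
          obtain ⟨S, _, rfl⟩ := (mem_freeOrbs G).mp hO
          exact Finset.card_image_le.trans (by simp)
      _ = _ := by simp

/-- MAIN COUNTING THEOREM: invariant up-closed families with vanishing signed count are rare. -/
theorem main_count :
    (((goods G : Finset (Finset (Finset X))).filter (fun F => wt F = 0)).card : ℝ) ^ 2 *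
      2 ^ (Fintype.card X) ≤ 2 * ((Fintype.card X : ℝ) + 2) ^ 5 * Fintype.card G *
      ((goods G : Finset (Finset (Finset X))).card : ℝ) ^ 2 := by
  set N := Fintype.card X with hN
  set M := (goods G : Finset (Finset (Finset X))).card with hM
  set B := ((goods G : Finset (Finset (Finset X))).filter (fun F => wt F = 0)).card with hB
  obtain ⟨a, ha1, ha2⟩ := goods_lower (X := X) G (N / 2)
  set s := a / (2 * (N + 1) ^ 2) with hs
  -- few free orbits
  obtain ⟨Fw, hFwdef, hfew⟩ : ∃ Fw : Finset (Finset (Finset X)),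
      (∀ F, F ∈ Fw ↔ F ∈ goods G ∧ ∀ k ∈ Finset.range (N + 1), (freeOrbs G F k).card < s) ∧
      Fw.card ≤ 2 ^ ((N + 1) * ((N + 1) * s)) :=
    ⟨fewSet G s, mem_fewSet G s, few_bound (X := X) G s⟩
  have hlev := fun k => level_bound (X := X) G k s
  set L : ℕ → Finset (Finset (Finset X)) := fun k => ((goods G : Finset (Finset (Finset X)))).filter
    (fun F => wt F = 0 ∧ s ≤ (freeOrbs G F k).card) with hL
  have hcover : (goods G : Finset (Finset (Finset X))).filter (fun F => wt F = 0) ⊆
      (Finset.range (N + 1)).biUnion L ∪ Fw := by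
    intro F hF
    simp only [Finset.mem_filter] at hF
    by_cases h : ∀ k ∈ Finset.range (N + 1), (freeOrbs G F k).card < s
    · exact Finset.mem_union_right _ ((hFwdef F).mpr ⟨hF.1, h⟩)
    · push Not at h
      obtain ⟨k, hk, hk2⟩ := h
      exact Finset.mem_union_left _ (Finset.mem_biUnion.mpr ⟨k, hk,
        Finset.mem_filter.mpr ⟨hF.1, hF.2, hk2⟩⟩)
  have hBle : B ≤ ∑ k ∈ Finset.range (N + 1), (L k).card + Fw.card :=
    (Finset.card_le_card hcover).trans ((Finset.card_union_le _ _).trans
      (Nat.add_le_add_right Finset.card_biUnion_le _))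
  -- few free bound in terms of M
  have hsa : 2 * ((N + 1) * ((N + 1) * s)) ≤ a := by
    have := Nat.div_mul_le_self a (2 * (N + 1) ^ 2)
    rw [← hs] at this
    nlinarith
  have hFw2 : Fw.card ^ 2 ≤ M := by
    calc Fw.card ^ 2 ≤ (2 ^ ((N + 1) * ((N + 1) * s))) ^ 2 := Nat.pow_le_pow_left hfew 2
      _ = 2 ^ (2 * ((N + 1) * ((N + 1) * s))) := by rw [← pow_mul, mul_comm]
      _ ≤ 2 ^ a := Nat.pow_le_pow_right (by norm_num) hsa
      _ ≤ M := ha1
  have hsM : s + 1 ≤ M := by
    have h1 : s ≤ a := Nat.div_le_self _ _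
    have h2 : a + 1 ≤ 2 ^ a := Nat.lt_two_pow_self
    omega
  have hFw3 : (Fw.card : ℝ) * √(s + 1) ≤ M := by
    have h1 : ((Fw.card : ℝ)) ^ 2 ≤ M := by exact_mod_cast hFw2
    have h2 : (s : ℝ) + 1 ≤ M := by exact_mod_cast hsM
    have hM0 : (0 : ℝ) ≤ M := Nat.cast_nonneg _
    have : ((Fw.card : ℝ) * √(s + 1)) ^ 2 ≤ (M : ℝ) ^ 2 := by
      rw [mul_pow, Real.sq_sqrt (by positivity)]
      nlinarith [sq_nonneg (Fw.card : ℝ)]
    exact le_of_sq_le_sq this hM0 |> fun h => h
  have hBs : (B : ℝ) * √(s + 1) ≤ (N + 2) * M := by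
    calc (B : ℝ) * √(s + 1) ≤ ((∑ k ∈ Finset.range (N + 1), (L k).card + Fw.card : ℕ) : ℝ) *
          √(s + 1) := by
          refine mul_le_mul_of_nonneg_right (by exact_mod_cast hBle) (Real.sqrt_nonneg _)
      _ = ∑ k ∈ Finset.range (N + 1), ((L k).card : ℝ) * √(s + 1) + Fw.card * √(s + 1) := by
          push_cast
          rw [add_mul, Finset.sum_mul]
      _ ≤ ∑ _k ∈ Finset.range (N + 1), (M : ℝ) + M :=
          add_le_add (Finset.sum_le_sum fun k _ => hlev k) hFw3
      _ = (N + 2) * M := by simp; ring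
  have hBsq : (B : ℝ) ^ 2 * (s + 1) ≤ (N + 2) ^ 2 * M ^ 2 := by
    have h := pow_le_pow_left₀ (by positivity) hBs 2
    rw [mul_pow, Real.sq_sqrt (by positivity), mul_pow] at h
    exact h
  -- s + 1 ≥ a / (2 (N+1)^2)
  have hs1 : (a : ℝ) ≤ 2 * (N + 1) ^ 2 * (s + 1) := by
    have : a < 2 * (N + 1) ^ 2 * (s + 1) := by
      have := Nat.lt_mul_div_succ a (show 0 < 2 * (N + 1) ^ 2 by positivity)
      simpa [hs] using this
    exact_mod_cast this.le
  have hch : (2 : ℝ) ^ N ≤ (N + 1) * (N.choose (N / 2)) := by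
    have h : 2 ^ N ≤ (N + 1) * N.choose (N / 2) := by
      rw [← Nat.sum_range_choose N]
      calc ∑ m ∈ Finset.range (N + 1), N.choose m ≤
          ∑ _m ∈ Finset.range (N + 1), N.choose (N / 2) :=
            Finset.sum_le_sum fun m _ => Nat.choose_le_middle m N
        _ = _ := by simp
    exact_mod_cast h
  have ha2' : (N.choose (N / 2) : ℝ) ≤ a * Fintype.card G := by exact_mod_cast ha2
  have hG0 : (0 : ℝ) ≤ Fintype.card G := Nat.cast_nonneg _
  have hN0 : (0 : ℝ) ≤ N := Nat.cast_nonneg _
  have hB0 : (0 : ℝ) ≤ (B : ℝ) ^ 2 := sq_nonneg _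
  calc (B : ℝ) ^ 2 * 2 ^ N ≤ (B : ℝ) ^ 2 * ((N + 1) * (a * Fintype.card G)) :=
        mul_le_mul_of_nonneg_left (hch.trans (mul_le_mul_of_nonneg_left ha2' (by positivity))) hB0
    _ ≤ (B : ℝ) ^ 2 * ((N + 1) * ((2 * (N + 1) ^ 2 * (s + 1)) * Fintype.card G)) := by
        refine mul_le_mul_of_nonneg_left ?_ hB0
        refine mul_le_mul_of_nonneg_left ?_ (by positivity)
        exact mul_le_mul_of_nonneg_right hs1 hG0
    _ = 2 * (N + 1) ^ 3 * Fintype.card G * ((B : ℝ) ^ 2 * (s + 1)) := by ring
    _ ≤ 2 * (N + 1) ^ 3 * Fintype.card G * ((N + 2) ^ 2 * M ^ 2) :=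
        mul_le_mul_of_nonneg_left hBsq (by positivity)
    _ ≤ 2 * (N + 2) ^ 3 * Fintype.card G * ((N + 2) ^ 2 * M ^ 2) := by
        refine mul_le_mul_of_nonneg_right ?_ (by positivity)
        refine mul_le_mul_of_nonneg_right ?_ hG0
        refine mul_le_mul_of_nonneg_left ?_ (by norm_num)
        exact pow_le_pow_left₀ (by positivity) (by linarith) 3
    _ = 2 * ((N : ℝ) + 2) ^ 5 * Fintype.card G * (M : ℝ) ^ 2 := by ring

end Pool.Agent.H161R2.Evas
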