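import Mathlib
import Pool.Agent.H161R2.EvasMain
import Pool.Agent.H161R2.EvasDefs

set_option autoImplicit false
set_option linter.unusedSectionVars false

namespace Pool.Agent.H161R2.Evas

open Finset
open scoped Pointwise Classical

/-- pairs of distinct vertices -/
abbrev Edge (n : ℕ) := {e : Sym2 (Fin n) // ¬ e.IsDiag}

lemma card_edge (n : ℕ) : Fintype.card (Edge n) = n.choose 2 := by
  have := Sym2.card_subtype_not_diag (α := Fin n)
  simpa using this

/-- relabelling -/
def actE {n : ℕ} (σ : Equiv.Perm (Fin n)) (e : Edge n) : Edge n :=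
  ⟨Sym2.map σ e.1, by
    have := e.2
    rwa [Sym2.isDiag_map σ.injective]⟩

instance actEdge (n : ℕ) : MulAction (Equiv.Perm (Fin n)) (Edge n) where
  smul := actE
  one_smul e := by
    apply Subtype.ext
    show Sym2.map _ e.1 = e.1
    simp
  mul_smul σ τ e := by
    apply Subtype.ext
    show Sym2.map _ e.1 = Sym2.map _ (Sym2.map _ e.1)
    rw [Sym2.map_map]
    rfl

lemma smul_val {n : ℕ} (σ : Equiv.Perm (Fin n)) (e : Edge n) : (σ • e).1 = Sym2.map σ e.1 := rfl

/-- edge set as a finite set -/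
noncomputable def toSet {n : ℕ} (H : SimpleGraph (Fin n)) : Finset (Edge n) :=
  Finset.univ.filter (fun e => e.1 ∈ H.edgeSet)

/-- the graph with given edges -/
def ofSet {n : ℕ} (S : Finset (Edge n)) : SimpleGraph (Fin n) :=
  SimpleGraph.fromEdgeSet {e | ∃ h, (⟨e, h⟩ : Edge n) ∈ S}

lemma ofSet_adj {n : ℕ} (S : Finset (Edge n)) (i j : Fin n) :
    (ofSet S).Adj i j ↔ ∃ h : ¬ (s(i, j)).IsDiag, (⟨s(i, j), h⟩ : Edge n) ∈ S := by
  simp only [ofSet, SimpleGraph.fromEdgeSet_adj, Set.mem_ofPred_eq]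
  constructor
  · exact fun h => h.1
  · rintro ⟨h, hS⟩
    exact ⟨⟨h, hS⟩, fun e => h (by simp [e])⟩

lemma ofSet_toSet {n : ℕ} (H : SimpleGraph (Fin n)) : ofSet (toSet H) = H := by
  ext i j
  rw [ofSet_adj]
  simp only [toSet, Finset.mem_filter, Finset.mem_univ, true_and, SimpleGraph.mem_edgeSet]
  constructor
  · exact fun h => h.2
  · intro h
    exact ⟨by simpa using h.ne, h⟩

lemma toSet_ofSet {n : ℕ} (S : Finset (Edge n)) : toSet (ofSet S) = S := by
  ext ⟨e, he⟩
  induction e with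
  | _ i j =>
    simp only [toSet, Finset.mem_filter, Finset.mem_univ, true_and, SimpleGraph.mem_edgeSet,
      ofSet_adj]
    constructor
    · rintro ⟨_, h⟩; exact h
    · exact fun h => ⟨he, h⟩

/-- graphs and finite sets of edges -/
noncomputable def graphEquiv (n : ℕ) : SimpleGraph (Fin n) ≃ Finset (Edge n) where
  toFun := toSet
  invFun := ofSet
  left_inv := ofSet_toSet
  right_inv := toSet_ofSet

/-- properties and families -/
noncomputable def famEquiv (n : ℕ) : Set (SimpleGraph (Fin n)) ≃ Finset (Finset (Edge n)) where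
  toFun P := Finset.univ.filter (fun S => ofSet S ∈ P)
  invFun F := {H | toSet H ∈ F}
  left_inv P := by
    ext H
    simp [ofSet_toSet]
  right_inv F := by
    ext S
    simp [toSet_ofSet]

lemma mem_fam {n : ℕ} (P : Set (SimpleGraph (Fin n))) (S : Finset (Edge n)) :
    S ∈ famEquiv n P ↔ ofSet S ∈ P := by
  simp [famEquiv]

lemma ofSet_mono {n : ℕ} {S T : Finset (Edge n)} (h : S ⊆ T) : ofSet S ≤ ofSet T := by
  intro i j hij
  rw [ofSet_adj] at hij ⊢
  obtain ⟨h1, h2⟩ := hij
  exact ⟨h1, h h2⟩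

lemma toSet_mono {n : ℕ} {H K : SimpleGraph (Fin n)} (h : H ≤ K) : toSet H ⊆ toSet K := by
  intro e he
  simp only [toSet, Finset.mem_filter, Finset.mem_univ, true_and] at he ⊢
  exact SimpleGraph.edgeSet_mono h he

lemma ofSet_smul {n : ℕ} (σ : Equiv.Perm (Fin n)) (S : Finset (Edge n)) :
    ofSet (σ • S) = (ofSet S).map σ.toEmbedding := by
  ext i j
  rw [ofSet_adj, SimpleGraph.map_adj]
  constructor
  · rintro ⟨h, hS⟩
    obtain ⟨⟨e, he⟩, heS, heq⟩ := Finset.mem_smul_finset.mp hS
    have h1 : Sym2.map σ e = s(i, j) := congrArg Subtype.val heq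
    induction e with
    | _ a b =>
      rw [Sym2.map_mk, Sym2.eq_iff] at h1
      rcases h1 with ⟨h1, h2⟩ | ⟨h1, h2⟩
      · exact ⟨a, b, (ofSet_adj S a b).mpr ⟨he, heS⟩, h1, h2⟩
      · refine ⟨b, a, ((ofSet_adj S a b).mpr ⟨he, heS⟩).symm, h2, h1⟩
  · rintro ⟨a, b, hab, rfl, rfl⟩
    obtain ⟨h, hS⟩ := (ofSet_adj S a b).mp hab
    refine ⟨?_, Finset.mem_smul_finset.mpr ⟨⟨s(a, b), h⟩, hS, ?_⟩⟩
    · simpa using h
    · apply Subtype.ext
      rw [smul_val]
      simp

lemma monoInv_iff {n : ℕ} (P : Set (SimpleGraph (Fin n))) :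
    MonoInv P ↔ famEquiv n P ∈ (goods (Equiv.Perm (Fin n)) : Finset (Finset (Finset (Edge n)))) := by
  rw [mem_goods]
  constructor
  · rintro ⟨h1, h2⟩
    constructor
    · intro S hS T hST
      rw [mem_fam] at hS ⊢
      exact h1 _ _ (ofSet_mono hST) hS
    · intro σ S hS
      rw [mem_fam] at hS ⊢
      rw [ofSet_smul]
      exact h2 σ _ hS
  · rintro ⟨h1, h2⟩
    constructor
    · intro H K hHK hH
      have := h1 (toSet H) (by rwa [mem_fam, ofSet_toSet]) (toSet K) (toSet_mono hHK)
      rwa [mem_fam, ofSet_toSet] at this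
    · intro σ H hH
      have := h2 σ (toSet H) (by rwa [mem_fam, ofSet_toSet])
      rwa [mem_fam, ofSet_smul, ofSet_toSet] at this

/-- translate strategies -/
def toDTree {n : ℕ} : Strategy n → DTree (Edge n)
  | .answer b => .leaf b
  | .ask i j a b => if h : (s(i, j)).IsDiag then toDTree a else
      .node ⟨s(i, j), h⟩ (toDTree a) (toDTree b)

lemma toDTree_depth {n : ℕ} (T : Strategy n) : (toDTree T).depth ≤ T.depth := by
  induction T with
  | answer b => simp [toDTree, DTree.depth]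
  | ask i j a b iha ihb =>
    simp only [toDTree, Strategy.depth]
    split_ifs with h
    · exact (iha.trans (le_max_left _ _)).trans (Nat.le_succ _)
    · simp only [DTree.depth]
      omega

lemma toDTree_eval {n : ℕ} (T : Strategy n) (S : Finset (Edge n)) :
    (toDTree T).eval S = T.run (ofSet S) := by
  induction T with
  | answer b => simp [toDTree, DTree.eval, Strategy.run]
  | ask i j a b iha ihb =>
    simp only [toDTree, Strategy.run]
    split_ifs with h1 h2 h2
    · exact absurd h1 ((ofSet_adj S i j).mp h2).1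
    · exact iha
    · simp only [DTree.eval]
      obtain ⟨_, h3⟩ := (ofSet_adj S i j).mp h2
      rw [if_pos h3, ihb]
    · simp only [DTree.eval]
      rw [if_neg (fun h3 => h2 ((ofSet_adj S i j).mpr ⟨h1, h3⟩)), iha]

lemma wt_zero_of_not_evasive {n : ℕ} {P : Set (SimpleGraph (Fin n))} (h : ¬ Evasive P) :
    wt (famEquiv n P) = 0 := by
  unfold Evasive at h
  push Not at h
  obtain ⟨T, hT, hd⟩ := h
  refine wt_eq_zero_of_tree _ (toDTree T) (fun S => ?_) ?_
  · rw [toDTree_eval, hT, mem_fam]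
  · rw [card_edge]
    exact lt_of_le_of_lt (toDTree_depth T) hd

lemma numAll_eq (n : ℕ) :
    numAll n = (goods (Equiv.Perm (Fin n)) : Finset (Finset (Finset (Edge n)))).card := by
  rw [numAll, ← Nat.card_eq_finsetCard]
  exact Nat.card_congr ((famEquiv n).subtypeEquiv (fun P => monoInv_iff P))

lemma numNonEvasive_le (n : ℕ) :
    numNonEvasive n ≤ ((goods (Equiv.Perm (Fin n)) : Finset (Finset (Finset (Edge n)))).filter
      (fun F => wt F = 0)).card := by
  rw [numNonEvasive, ← Nat.card_eq_finsetCard]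
  refine Nat.card_le_card_of_injective (fun P => ⟨famEquiv n P.1, ?_⟩) ?_
  · exact Finset.mem_filter.mpr ⟨(monoInv_iff P.1).mp P.2.1, wt_zero_of_not_evasive P.2.2⟩
  · intro P Q h
    have := congrArg Subtype.val h
    exact Subtype.ext ((famEquiv n).injective this)

theorem graph_bound (n : ℕ) :
    (numNonEvasive n : ℝ) ^ 2 * 2 ^ (n.choose 2) ≤
      2 * ((n.choose 2 : ℝ) + 2) ^ 5 * n.factorial * (numAll n : ℝ) ^ 2 := by
  have h := main_count (X := Edge n) (Equiv.Perm (Fin n))
  rw [card_edge, Fintype.card_perm, Fintype.card_fin] at h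
  rw [numAll_eq]
  refine le_trans ?_ h
  refine mul_le_mul_of_nonneg_right ?_ (by positivity)
  exact pow_le_pow_left₀ (Nat.cast_nonneg _) (by exact_mod_cast numNonEvasive_le n) 2

end Pool.Agent.H161R2.Evas
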