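import Mathlib
import Pool.Agent.H161R2.EvasGraph

set_option autoImplicit false

namespace Pool.Agent.H161R2.Evas

open Filter

lemma asym_aux (ε : ℝ) (hε : 0 < ε) : ∀ᶠ n : ℕ in atTop,
    2 * ((n.choose 2 : ℝ) + 2) ^ 5 * n.factorial ≤ (2 : ℝ) ^ (2 * ε * (n.choose 2 : ℝ)) := by
  have hl2 : 0 < Real.log 2 := Real.log_pos (by norm_num)
  set δ : ℝ := ε * Real.log 2 / 34 with hδ
  have hδ0 : 0 < δ := by positivity
  have h1 : ∀ᶠ n : ℕ in atTop, Real.log n ≤ δ * n := by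
    have h := Real.isLittleO_log_id_atTop.bound hδ0
    have h' := tendsto_natCast_atTop_atTop.eventually h
    filter_upwards [h', eventually_ge_atTop 1] with n hn hn1
    have e1 : ‖Real.log (n : ℝ)‖ = Real.log n := by
      rw [Real.norm_eq_abs, abs_of_nonneg (Real.log_nonneg (by exact_mod_cast hn1))]
    have e2 : ‖(id (n : ℝ))‖ = n := by simp
    rw [e1, e2] at hn
    exact hn
  filter_upwards [h1, eventually_ge_atTop 2] with n hn hn2
  have hn2' : (2 : ℝ) ≤ n := by exact_mod_cast hn2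
  have hn0 : (0 : ℝ) < n := by linarith
  have hN : (n.choose 2 : ℝ) = n * (n - 1) / 2 := by
    rw [Nat.cast_choose_two]
  have hNle : (n.choose 2 : ℝ) + 2 ≤ 2 * n ^ 2 := by rw [hN]; nlinarith
  have hNge : (n : ℝ) ^ 2 / 4 ≤ (n.choose 2 : ℝ) := by rw [hN]; nlinarith
  have hNnn : (0 : ℝ) ≤ (n.choose 2 : ℝ) := Nat.cast_nonneg _
  have hfac : (n.factorial : ℝ) ≤ (n : ℝ) ^ n := by exact_mod_cast Nat.factorial_le_pow n
  have h64 : (64 : ℝ) ≤ (n : ℝ) ^ 6 := by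
    calc (64 : ℝ) = 2 ^ 6 := by norm_num
      _ ≤ (n : ℝ) ^ 6 := pow_le_pow_left₀ (by norm_num) hn2' 6
  have hlhs : 2 * ((n.choose 2 : ℝ) + 2) ^ 5 * n.factorial ≤ (n : ℝ) ^ (n + 16) := by
    calc 2 * ((n.choose 2 : ℝ) + 2) ^ 5 * n.factorial
        ≤ 2 * (2 * (n : ℝ) ^ 2) ^ 5 * (n : ℝ) ^ n := by
          refine mul_le_mul ?_ hfac (Nat.cast_nonneg _) (by positivity)
          exact mul_le_mul_of_nonneg_left (pow_le_pow_left₀ (by positivity) hNle 5) (by norm_num)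
      _ = 64 * (n : ℝ) ^ (n + 10) := by ring
      _ ≤ (n : ℝ) ^ 6 * (n : ℝ) ^ (n + 10) := mul_le_mul_of_nonneg_right h64 (by positivity)
      _ = (n : ℝ) ^ (n + 16) := by ring
  refine hlhs.trans ?_
  have e1 : (n : ℝ) ^ (n + 16) = Real.exp (((n + 16 : ℕ) : ℝ) * Real.log n) := by
    rw [Real.exp_nat_mul, Real.exp_log hn0]
  have e2 : (2 : ℝ) ^ (2 * ε * (n.choose 2 : ℝ)) =
      Real.exp (Real.log 2 * (2 * ε * (n.choose 2 : ℝ))) := by
    rw [Real.rpow_def_of_pos (by norm_num)]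
  rw [e1, e2]
  apply Real.exp_le_exp.mpr
  have hlog : 0 ≤ Real.log n := Real.log_nonneg (by linarith)
  calc ((n + 16 : ℕ) : ℝ) * Real.log n ≤ (17 * n) * (δ * n) := by
        refine mul_le_mul ?_ hn hlog (by positivity)
        push_cast
        linarith
    _ = ε * Real.log 2 / 2 * n ^ 2 := by rw [hδ]; ring
    _ = Real.log 2 * (2 * ε * ((n : ℝ) ^ 2 / 4)) := by ring
    _ ≤ Real.log 2 * (2 * ε * (n.choose 2 : ℝ)) := by
        refine mul_le_mul_of_nonneg_left ?_ hl2.le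
        exact mul_le_mul_of_nonneg_left hNge (by positivity)

theorem graph_asym (ε : ℝ) (hε : 0 < ε) : ∀ᶠ n : ℕ in atTop,
    (numNonEvasive n : ℝ) ≤ (2 : ℝ) ^ (-(1 / 2 - ε) * (n.choose 2 : ℝ)) * numAll n := by
  filter_upwards [asym_aux ε hε] with n hn
  have h := graph_bound n
  have hA : (0 : ℝ) ≤ (numAll n : ℝ) ^ 2 := by positivity
  have h2 : (numNonEvasive n : ℝ) ^ 2 * (2 : ℝ) ^ ((n.choose 2 : ℕ) : ℝ) ≤
      (2 : ℝ) ^ (2 * ε * (n.choose 2 : ℝ)) * (numAll n : ℝ) ^ 2 := by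
    rw [Real.rpow_natCast]
    exact h.trans (mul_le_mul_of_nonneg_right hn hA)
  have h3 : (numNonEvasive n : ℝ) ^ 2 ≤
      ((2 : ℝ) ^ (-(1 / 2 - ε) * (n.choose 2 : ℝ)) * numAll n) ^ 2 := by
    rw [mul_pow, ← Real.rpow_natCast ((2 : ℝ) ^ _) 2, ← Real.rpow_mul (by norm_num)]
    have e : (2 : ℝ) ^ (-(1 / 2 - ε) * (n.choose 2 : ℝ) * ((2 : ℕ) : ℝ)) =
        (2 : ℝ) ^ (2 * ε * (n.choose 2 : ℝ)) / (2 : ℝ) ^ ((n.choose 2 : ℕ) : ℝ) := by
      rw [← Real.rpow_sub (by norm_num)]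
      congr 1
      push_cast
      ring
    rw [e, div_mul_eq_mul_div, le_div_iff₀ (by positivity)]
    exact h2
  exact le_of_sq_le_sq h3 (by positivity) |> fun h => h

end Pool.Agent.H161R2.Evas
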