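import Mathlib
import Pool.Agent.H161R2.EvasMain

set_option autoImplicit false

/-!
# Almost all monotone functions invariant under a permutation group are evasive
-/

namespace Pool.Agent.H161R2.Evas

open Finset Filter
open scoped Pointwise Classical

/-- A decision tree which queries the bits of an input `Fin n → Bool`. -/
inductive BitTree (n : ℕ) where
  | answer (b : Bool) : BitTree n
  | query (i : Fin n) (no yes : BitTree n) : BitTree n

/-- the largest number of queries on a path -/
def BitTree.depth {n : ℕ} : BitTree n → ℕ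
  | .answer _ => 0
  | .query _ a b => max a.depth b.depth + 1

/-- the answer on the input `x` -/
def BitTree.run {n : ℕ} : BitTree n → (Fin n → Bool) → Bool
  | .answer b, _ => b
  | .query i a b, x => if x i = true then b.run x else a.run x

/-- every decision tree computing `f` has depth at least `n` -/
def EvasiveFun {n : ℕ} (f : (Fin n → Bool) → Bool) : Prop :=
  ∀ T : BitTree n, (∀ x, T.run x = f x) → n ≤ T.depth

/-- monotone and invariant under the group `Γ` of permutations of the variables -/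
def MonoFun {n : ℕ} (Γ : Subgroup (Equiv.Perm (Fin n))) (f : (Fin n → Bool) → Bool) : Prop :=
  Monotone f ∧ ∀ σ ∈ Γ, ∀ x : Fin n → Bool, f (x ∘ σ) = f x

/-- the number of monotone `Γ`-invariant functions -/
noncomputable def numFun {n : ℕ} (Γ : Subgroup (Equiv.Perm (Fin n))) : ℕ :=
  Nat.card {f : (Fin n → Bool) → Bool // MonoFun Γ f}

/-- the number of the non-evasive ones -/
noncomputable def numFunNonEvasive {n : ℕ} (Γ : Subgroup (Equiv.Perm (Fin n))) : ℕ :=
  Nat.card {f : (Fin n → Bool) → Bool // MonoFun Γ f ∧ ¬ EvasiveFun f}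

/-- indicator of a set -/
def ind {n : ℕ} (S : Finset (Fin n)) : Fin n → Bool := fun i => decide (i ∈ S)

/-- support of a point -/
def supp {n : ℕ} (x : Fin n → Bool) : Finset (Fin n) := Finset.univ.filter (fun i => x i = true)

lemma supp_ind {n : ℕ} (S : Finset (Fin n)) : supp (ind S) = S := by
  ext i; simp [supp, ind]

lemma ind_supp {n : ℕ} (x : Fin n → Bool) : ind (supp x) = x := by
  funext i; simp [supp, ind]

/-- functions and families -/
noncomputable def funEquiv (n : ℕ) : ((Fin n → Bool) → Bool) ≃ Finset (Finset (Fin n)) where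
  toFun f := Finset.univ.filter (fun S => f (ind S) = true)
  invFun F := fun x => decide (supp x ∈ F)
  left_inv f := by
    funext x
    simp [ind_supp]
  right_inv F := by
    ext S
    simp [supp_ind]

lemma mem_funEquiv {n : ℕ} (f : (Fin n → Bool) → Bool) (S : Finset (Fin n)) :
    S ∈ funEquiv n f ↔ f (ind S) = true := by
  simp [funEquiv]

lemma ind_smul {n : ℕ} {Γ : Subgroup (Equiv.Perm (Fin n))} (σ : Γ) (S : Finset (Fin n)) :
    ind (σ • S) = ind S ∘ (σ⁻¹ : Γ).1 := by
  funext i
  simp only [ind, Function.comp, decide_eq_decide]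
  rw [← Finset.inv_smul_mem_iff]
  rfl

lemma monoFun_iff {n : ℕ} (Γ : Subgroup (Equiv.Perm (Fin n))) (f : (Fin n → Bool) → Bool) :
    MonoFun Γ f ↔ funEquiv n f ∈ (goods Γ : Finset (Finset (Finset (Fin n)))) := by
  rw [mem_goods]
  constructor
  · rintro ⟨h1, h2⟩
    constructor
    · intro S hS T hST
      rw [mem_funEquiv] at hS ⊢
      have : ind S ≤ ind T := by
        intro i
        simp only [ind]
        by_cases h : i ∈ S
        · simp [h, hST h]
        · simp [h]
      have h3 := h1 this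
      rw [hS] at h3
      exact top_le_iff.mp h3
    · intro σ S hS
      rw [mem_funEquiv] at hS ⊢
      rw [ind_smul, h2 _ (σ⁻¹).2]
      exact hS
  · rintro ⟨h1, h2⟩
    constructor
    · intro x y hxy
      by_cases hx : f x = true
      · have h3 : supp x ⊆ supp y := by
          intro i hi
          simp only [supp, Finset.mem_filter, Finset.mem_univ, true_and] at hi ⊢
          have := hxy i
          rw [hi] at this
          exact top_le_iff.mp this
        have h4 := h1 (supp x) (by rwa [mem_funEquiv, ind_supp]) (supp y) h3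
        rw [mem_funEquiv, ind_supp] at h4
        rw [hx, h4]
      · rw [Bool.not_eq_true] at hx
        rw [hx]
        exact bot_le
    · intro σ hσ x
      have key : ∀ (τ : Γ) (z : Fin n → Bool), f z = true → f (z ∘ (τ : Equiv.Perm (Fin n))) = true := by
        intro τ z hz
        have h3 := h2 τ⁻¹ (supp z) (by rwa [mem_funEquiv, ind_supp])
        rw [mem_funEquiv, ind_smul, ind_supp, inv_inv] at h3
        exact h3
      rw [Bool.eq_iff_iff]
      constructor
      · intro h
        have := key ⟨σ, hσ⟩⁻¹ _ h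
        have e : (x ∘ σ) ∘ ((⟨σ, hσ⟩⁻¹ : Γ) : Equiv.Perm (Fin n)) = x := by
          funext i
          simp
        rwa [e] at this
      · exact key ⟨σ, hσ⟩ x

/-- translate trees -/
def toDTree' {n : ℕ} : BitTree n → DTree (Fin n)
  | .answer b => .leaf b
  | .query i a b => .node i (toDTree' a) (toDTree' b)

lemma toDTree'_depth {n : ℕ} (T : BitTree n) : (toDTree' T).depth = T.depth := by
  induction T with
  | answer b => rfl
  | query i a b iha ihb => simp [toDTree', DTree.depth, BitTree.depth, iha, ihb]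

lemma toDTree'_eval {n : ℕ} (T : BitTree n) (S : Finset (Fin n)) :
    (toDTree' T).eval S = T.run (ind S) := by
  induction T with
  | answer b => rfl
  | query i a b iha ihb =>
    simp only [toDTree', DTree.eval, BitTree.run, iha, ihb, ind, decide_eq_true_eq]

lemma wt_zero_of_not_evasiveFun {n : ℕ} {f : (Fin n → Bool) → Bool} (h : ¬ EvasiveFun f) :
    wt (funEquiv n f) = 0 := by
  unfold EvasiveFun at h
  push Not at h
  obtain ⟨T, hT, hd⟩ := h
  refine wt_eq_zero_of_tree _ (toDTree' T) (fun S => ?_) ?_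
  · rw [toDTree'_eval, hT, mem_funEquiv]
  · rw [toDTree'_depth, Fintype.card_fin]
    exact hd

theorem perm_bound (n : ℕ) (Γ : Subgroup (Equiv.Perm (Fin n))) :
    (numFunNonEvasive Γ : ℝ) ^ 2 * 2 ^ n ≤
      2 * ((n : ℝ) + 2) ^ 5 * Nat.card Γ * (numFun Γ : ℝ) ^ 2 := by
  have h := main_count (X := Fin n) Γ
  rw [Fintype.card_fin, ← Nat.card_eq_fintype_card (α := Γ)] at h
  have e1 : numFun Γ = (goods Γ : Finset (Finset (Finset (Fin n)))).card := by
    rw [numFun, ← Nat.card_eq_finsetCard]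
    exact Nat.card_congr ((funEquiv n).subtypeEquiv (fun f => monoFun_iff Γ f))
  have e2 : numFunNonEvasive Γ ≤ ((goods Γ : Finset (Finset (Finset (Fin n)))).filter
      (fun F => wt F = 0)).card := by
    rw [numFunNonEvasive, ← Nat.card_eq_finsetCard]
    refine Nat.card_le_card_of_injective (fun f => ⟨funEquiv n f.1, ?_⟩) ?_
    · exact Finset.mem_filter.mpr ⟨(monoFun_iff Γ f.1).mp f.2.1, wt_zero_of_not_evasiveFun f.2.2⟩
    · intro f g h
      have := congrArg Subtype.val h
      exact Subtype.ext ((funEquiv n).injective this)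
  rw [e1]
  refine le_trans ?_ h
  refine mul_le_mul_of_nonneg_right ?_ (by positivity)
  exact pow_le_pow_left₀ (Nat.cast_nonneg _) (by exact_mod_cast e2) 2

lemma asym_aux' (δ : ℝ) (hδ : 0 < δ) : ∀ᶠ n : ℕ in atTop,
    2 * ((n : ℝ) + 2) ^ 5 ≤ (2 : ℝ) ^ (δ * (n : ℝ)) := by
  have hl2 : 0 < Real.log 2 := Real.log_pos (by norm_num)
  have h1 : Tendsto (fun x : ℝ => x ^ 6 * Real.exp (-(δ * Real.log 2 * x))) atTop (nhds 0) := by
    have := Real.tendsto_pow_mul_exp_neg_atTop_nhds_zero 6
    have h2 := (this.comp (tendsto_id.const_mul_atTop (show 0 < δ * Real.log 2 by positivity)))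
    have h3 := h2.const_mul (((δ * Real.log 2) ^ 6)⁻¹)
    rw [mul_zero] at h3
    refine h3.congr fun x => ?_
    simp only [Function.comp, id]
    field_simp
  have h2 := (tendsto_natCast_atTop_atTop (R := ℝ)).eventually
    (h1.eventually (gt_mem_nhds (show (0 : ℝ) < 1 by norm_num)))
  filter_upwards [h2, eventually_ge_atTop 64] with n hn hn2
  have hn64 : (64 : ℝ) ≤ n := by exact_mod_cast hn2
  have e2 : (2 : ℝ) ^ (δ * (n : ℝ)) = Real.exp (δ * Real.log 2 * n) := by
    rw [Real.rpow_def_of_pos (by norm_num)]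
    congr 1
    ring
  rw [e2]
  rw [Real.exp_neg] at hn
  have hpos := Real.exp_pos (δ * Real.log 2 * n)
  have h3 : (n : ℝ) ^ 6 ≤ Real.exp (δ * Real.log 2 * n) := by
    have := (mul_inv_lt_iff₀ hpos).mp hn
    linarith
  calc 2 * ((n : ℝ) + 2) ^ 5 ≤ 2 * (2 * (n : ℝ)) ^ 5 := by
        refine mul_le_mul_of_nonneg_left ?_ (by norm_num)
        exact pow_le_pow_left₀ (by positivity) (by linarith) 5
    _ = 64 * (n : ℝ) ^ 5 := by ring
    _ ≤ n * (n : ℝ) ^ 5 := mul_le_mul_of_nonneg_right hn64 (by positivity)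
    _ = (n : ℝ) ^ 6 := by ring
    _ ≤ _ := h3

theorem perm_asym (δ : ℝ) (hδ : 0 < δ) : ∀ᶠ n : ℕ in atTop,
    ∀ Γ : Subgroup (Equiv.Perm (Fin n)), (Nat.card Γ : ℝ) ≤ (2 : ℝ) ^ ((1 - δ) * (n : ℝ)) →
      (numFunNonEvasive Γ : ℝ) ≤ (2 : ℝ) ^ (-(δ / 3) * (n : ℝ)) * numFun Γ := by
  filter_upwards [asym_aux' (δ / 3) (by positivity)] with n hn Γ hΓ
  have h := perm_bound n Γ
  have hA : (0 : ℝ) ≤ (numFun Γ : ℝ) ^ 2 := by positivity
  have h2 : (numFunNonEvasive Γ : ℝ) ^ 2 * (2 : ℝ) ^ (n : ℝ) ≤
      (2 : ℝ) ^ (δ / 3 * (n : ℝ)) * (2 : ℝ) ^ ((1 - δ) * (n : ℝ)) * (numFun Γ : ℝ) ^ 2 := by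
    rw [Real.rpow_natCast]
    refine h.trans (mul_le_mul_of_nonneg_right ?_ hA)
    exact mul_le_mul hn hΓ (Nat.cast_nonneg _) (by positivity)
  have h3 : (numFunNonEvasive Γ : ℝ) ^ 2 ≤
      ((2 : ℝ) ^ (-(δ / 3) * (n : ℝ)) * numFun Γ) ^ 2 := by
    rw [mul_pow, ← Real.rpow_natCast ((2 : ℝ) ^ _) 2, ← Real.rpow_mul (by norm_num)]
    have e : (2 : ℝ) ^ (-(δ / 3) * (n : ℝ) * ((2 : ℕ) : ℝ)) =
        (2 : ℝ) ^ (δ / 3 * (n : ℝ)) * (2 : ℝ) ^ ((1 - δ) * (n : ℝ)) / (2 : ℝ) ^ (n : ℝ) := by
      rw [← Real.rpow_add (by norm_num), ← Real.rpow_sub (by norm_num)]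
      congr 1
      push_cast
      ring
    rw [e, div_mul_eq_mul_div, le_div_iff₀ (by positivity)]
    exact h2
  exact le_of_sq_le_sq h3 (by positivity) |> fun h => h

end Pool.Agent.H161R2.Evas
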