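import Pool.Agent.H161R2.KissWyner
import Pool.Agent.H613R2.LP.KFinal
import Pool.Agent.H390R2.LP.Main

/-! Symmetric kissing configurations are exponentially smaller than the kissing number. -/

open scoped InnerProductSpace
open Filter Topology

namespace Pool.Agent.H161R2.KissSym

open Pool.Agent.H818R2

lemma kissing_upper : ∀ᶠ n : ℕ in atTop, (kissing n : ℝ) ≤ (2 : ℝ) ^ ((397 / 1000 : ℝ) * n) := by
  filter_upwards [Pool.Agent.H613R2.LP.codes_397 Pool.Agent.H390R2.LP.iidw, eventually_gt_atTop 0]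
    with n hn hn0
  have : NeZero n := ⟨by omega⟩
  have hs : 0 < Real.sin (Real.pi / 3 / 2) := by rw [sin_kiss]; norm_num
  obtain ⟨P, hP, hPc⟩ := Nat.sSup_mem (sph_nonempty n (Real.pi / 3)) (sph_bdd hs)
  change P.card = kissing n at hPc
  rw [← hPc]
  apply hn P hP.1
  intro x hx y hy hxy
  have h1 := hP.2 x hx y hy hxy
  rw [Real.cos_pi_div_three] at h1
  have h2 := norm_sub_sq_real x y
  rw [hP.1 x hx, hP.1 y hy] at h2
  rw [dist_eq_norm]
  have h3 : (1 : ℝ) ^ 2 ≤ ‖x - y‖ ^ 2 := by rw [h2]; linarith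
  exact le_of_sq_le_sq h3 (norm_nonneg _)

lemma cplus_le : limsup (fun d : ℕ => Real.logb 2 (kissing d) / d) atTop ≤ 397 / 1000 := by
  refine limsup_le_of_le ?_ ?_
  · refine IsCoboundedUnder.of_frequently_ge (a := 0) (Eventually.frequently ?_)
    exact Eventually.of_forall (fun d => codeRate_nonneg (Real.pi / 3) d)
  · filter_upwards [kissing_upper, eventually_gt_atTop 0] with d hd hd0
    have hd' : (0 : ℝ) < d := by exact_mod_cast hd0
    rw [div_le_iff₀ hd']
    rcases Nat.eq_zero_or_pos (kissing d) with h0 | h0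
    · rw [h0]
      simp only [Nat.cast_zero, Real.logb_zero]
      positivity
    · rw [Real.logb_le_iff_le_rpow (by norm_num) (by exact_mod_cast h0)]
      exact hd

open Classical in
theorem small : ∀ᶠ n : ℕ in atTop, ∀ (m k : ℕ)
      (g : Fin m → (EuclideanSpace ℝ (Fin n) ≃ₗᵢ[ℝ] EuclideanSpace ℝ (Fin n))),
      4 ≤ m → 0 < k → (∀ i j, i ≠ j → moved (g i) ⟂ moved (g j)) →
      (∀ i, k ≤ Module.finrank ℝ (moved (g i))) → (12 / 25 : ℝ) * n ≤ (m - 4 : ℕ) * k →
      ∀ X : Finset (EuclideanSpace ℝ (Fin n)), IsSphCode n (Real.pi / 3) X →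
        ((X.filter (fun x => ∀ i, g i x ∈ X)).card : ℝ) ≤ (2 : ℝ) ^ (-(n : ℝ) / 1000) * kissing n := by
  filter_upwards [asym (δ := 12 / 25) (by norm_num) (by norm_num) (ε := 1 / 20000) (by norm_num),
    eventually_gt_atTop 0] with n hn hn0
  intro m k g hm hk0 hV hk hδ X hX
  have h1 := hn m k g hm hk0 hV hk hδ X hX
  have h2 := wyner' n hn0
  have hn0' : (0 : ℝ) ≤ n := Nat.cast_nonneg n
  have h3 := cplus_le
  refine h1.trans ?_
  calc (2 : ℝ) ^ (((1 - 12 / 25) * limsup (fun d : ℕ => Real.logb 2 (kissing d) / d) atTop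
            + 1 / 20000) * n)
      ≤ (2 : ℝ) ^ (-(n : ℝ) / 1000 + (83 / 400 : ℝ) * n) := by
        apply Real.rpow_le_rpow_of_exponent_le (by norm_num)
        have h4 : ((1 - 12 / 25) * limsup (fun d : ℕ => Real.logb 2 (kissing d) / d) atTop
            + 1 / 20000) ≤ (-1 / 1000 + 83 / 400 : ℝ) := by linarith
        calc _ ≤ (-1 / 1000 + 83 / 400 : ℝ) * n := mul_le_mul_of_nonneg_right h4 hn0'
          _ = _ := by ring
    _ = (2 : ℝ) ^ (-(n : ℝ) / 1000) * (2 : ℝ) ^ ((83 / 400 : ℝ) * n) := by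
        rw [← Real.rpow_add (by norm_num)]
    _ ≤ _ := mul_le_mul_of_nonneg_left h2 (by positivity)

end Pool.Agent.H161R2.KissSym
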