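import Pool.Agent.H161R2.KissSym2

/-! Lower bound by fixed configurations and the case of nontrivial isometries. -/

open scoped InnerProductSpace
open Filter Topology

namespace Pool.Agent.H161R2.KissSym

open Pool.Agent.H818R2

/-- a largest code inside a subspace -/
lemma exists_code_sub {θ : ℝ} (hs : 0 < Real.sin (θ / 2)) {n : ℕ}
    (W : Submodule ℝ (EuclideanSpace ℝ (Fin n))) :
    ∃ X : Finset (EuclideanSpace ℝ (Fin n)), IsSphCode n θ X ∧ (∀ x ∈ X, x ∈ W) ∧
      X.card = sphMax (Module.finrank ℝ W) θ := by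
  classical
  rcases Nat.eq_zero_or_pos (Module.finrank ℝ W) with h0 | h0
  · refine ⟨∅, ⟨by simp, by simp⟩, by simp, ?_⟩
    rw [h0, sphMax_zero]
    rfl
  · have : NeZero (Module.finrank ℝ W) := ⟨by omega⟩
    obtain ⟨P, hP, hPc⟩ := Nat.sSup_mem (sph_nonempty (Module.finrank ℝ W) θ) (sph_bdd hs)
    change P.card = sphMax (Module.finrank ℝ W) θ at hPc
    set b := (stdOrthonormalBasis ℝ W).repr with hb
    set f : EuclideanSpace ℝ (Fin (Module.finrank ℝ W)) → EuclideanSpace ℝ (Fin n) :=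
      fun x => ((b.symm x : W) : EuclideanSpace ℝ (Fin n)) with hf
    have hinj : Function.Injective f := by
      intro x y hxy
      exact b.symm.injective (Subtype.ext hxy)
    have hin : ∀ x y, ⟪f x, f y⟫_ℝ = ⟪x, y⟫_ℝ := by
      intro x y
      have h1 : ⟪b.symm x, b.symm y⟫_ℝ = ⟪x, y⟫_ℝ := b.symm.inner_map_map x y
      rw [← h1]
      rfl
    refine ⟨P.image f, ⟨?_, ?_⟩, ?_, ?_⟩
    · intro u hu
      obtain ⟨x, hx, rfl⟩ := Finset.mem_image.1 hu
      have h1 : ‖f x‖ ^ 2 = 1 := by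
        rw [← real_inner_self_eq_norm_sq, hin, real_inner_self_eq_norm_sq, hP.1 x hx]
        norm_num
      nlinarith [norm_nonneg (f x)]
    · intro u hu v hv huv
      obtain ⟨x, hx, rfl⟩ := Finset.mem_image.1 hu
      obtain ⟨y, hy, rfl⟩ := Finset.mem_image.1 hv
      rw [hin]
      exact hP.2 x hx y hy (fun hh => huv (by rw [hh]))
    · intro u hu
      obtain ⟨x, hx, rfl⟩ := Finset.mem_image.1 hu
      exact (b.symm x).2
    · rw [Finset.card_image_of_injective _ hinj, hPc]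

/-- a configuration fixed pointwise by all `g i` -/
theorem exists_fixed {θ : ℝ} (hs : 0 < Real.sin (θ / 2)) {n m : ℕ}
    (g : Fin m → (EuclideanSpace ℝ (Fin n) ≃ₗᵢ[ℝ] EuclideanSpace ℝ (Fin n)))
    (hV : ∀ i j, i ≠ j → moved (g i) ⟂ moved (g j)) :
    ∃ X : Finset (EuclideanSpace ℝ (Fin n)), IsSphCode n θ X ∧ (∀ x ∈ X, ∀ i, g i x = x) ∧
      X.card = sphMax (n - ∑ i, Module.finrank ℝ (moved (g i))) θ := by
  classical
  obtain ⟨X, hX, hW, hc⟩ := exists_code_sub hs
    ((Finset.univ : Finset (Fin m)).sup (fun i => moved (g i)))ᗮ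
  refine ⟨X, hX, ?_, ?_⟩
  · intro x hx i
    have h1 := hW x hx
    have h2 : moved (g i) ≤ (Finset.univ : Finset (Fin m)).sup (fun i => moved (g i)) :=
      Finset.le_sup (f := fun i => moved (g i)) (Finset.mem_univ i)
    have h3 : x ∈ (moved (g i))ᗮ := Submodule.orthogonal_le h2 h1
    unfold moved at h3
    rw [Submodule.orthogonal_orthogonal, LinearMap.mem_ker, LinearMap.sub_apply,
      LinearMap.id_apply, sub_eq_zero] at h3
    exact h3
  · rw [hc, finrank_orth (fun i => moved (g i)) hV]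

lemma kiss_iter {a : ℕ} (ha : 4 ≤ a) (j : ℕ) : kissing (a + j) ≤ 16 ^ j * kissing a := by
  induction j with
  | zero => simp
  | succ j ih =>
    calc kissing (a + (j + 1)) = kissing ((a + j) + 1) := by rw [Nat.add_assoc]
      _ ≤ 16 * kissing (a + j) := kissing_succ_le (by omega)
      _ ≤ 16 * (16 ^ j * kissing a) := Nat.mul_le_mul_left _ ih
      _ = 16 ^ (j + 1) * kissing a := by ring

lemma moved_pos {n : ℕ} (g : EuclideanSpace ℝ (Fin n) ≃ₗᵢ[ℝ] EuclideanSpace ℝ (Fin n))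
    (hg : ∃ x, g x ≠ x) : 1 ≤ Module.finrank ℝ (moved g) := by
  by_contra h
  have h0 : Module.finrank ℝ (moved g) = 0 := by omega
  rw [Submodule.finrank_eq_zero] at h0
  obtain ⟨x, hx⟩ := hg
  apply hx
  have h1 := moved_bound g x
  rw [h0] at h1
  simp at h1
  exact sub_eq_zero.1 h1

open Classical in
theorem kiss_nontrivial {n m : ℕ} (hn : m + 4 ≤ n)
    (g : Fin m → (EuclideanSpace ℝ (Fin n) ≃ₗᵢ[ℝ] EuclideanSpace ℝ (Fin n)))
    (hg : ∀ i, ∃ x, g i x ≠ x)
    (hV : ∀ i j, i ≠ j → moved (g i) ⟂ moved (g j))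
    {X : Finset (EuclideanSpace ℝ (Fin n))} (hX : IsSphCode n (Real.pi / 3) X) :
    (X.filter (fun x => ∀ i, g i x ∈ X)).card ≤ (16 * (m + 1)) ^ 4 * kissing (n - m) := by
  have hs : 0 < Real.sin (Real.pi / 3 / 2) := by rw [sin_kiss]; norm_num
  rcases le_or_gt 4 m with hm | hm
  · have h1 := kiss_le hm g hV (k := 1) (fun i => moved_pos (g i) (hg i)) hX
    rw [mul_one] at h1
    have h2 : n - (m - 4) = (n - m) + 4 := by omega
    rw [h2] at h1
    refine h1.trans ?_
    have h3 := kiss_iter (a := n - m) (by omega) 4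
    calc (m + 1) ^ 4 * kissing (n - m + 4) ≤ (m + 1) ^ 4 * (16 ^ 4 * kissing (n - m)) :=
          Nat.mul_le_mul_left _ h3
      _ = (16 * (m + 1)) ^ 4 * kissing (n - m) := by ring
  · have : NeZero n := ⟨by omega⟩
    have h1 : (X.filter (fun x => ∀ i, g i x ∈ X)).card ≤ kissing n :=
      (Finset.card_filter_le _ _).trans (le_sphMax hs hX)
    have h2 : n = (n - m) + m := by omega
    have h3 := kiss_iter (a := n - m) (by omega) m
    rw [← h2] at h3
    refine (h1.trans h3).trans (Nat.mul_le_mul_right _ ?_)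
    calc 16 ^ m ≤ 16 ^ 4 := Nat.pow_le_pow_right (by norm_num) hm.le
      _ ≤ (16 * (m + 1)) ^ 4 := Nat.pow_le_pow_left (by omega) 4

end Pool.Agent.H161R2.KissSym
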