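import Pool.Agent.H161R2.KissLow
import Pool.Agent.H161R2.KissFinal

/-! Definitions used in the statement of MP_b5f63d_co.OrthogonalSymmetries. -/

open Filter

namespace Pool.Agent.H161R2.KissSym

open Pool.Agent.H818R2

/-- `n`-dimensional Euclidean space -/
abbrev E (n : ℕ) := EuclideanSpace ℝ (Fin n)

/-- the linear isometries of `ℝⁿ` onto itself -/
abbrev Isom (n : ℕ) := EuclideanSpace ℝ (Fin n) ≃ₗᵢ[ℝ] EuclideanSpace ℝ (Fin n)

/-- the moved spaces of the `g i` are pairwise orthogonal -/
def OrthMoved {n m : ℕ} (g : Fin m → Isom n) : Prop :=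
  ∀ i j, i ≠ j → moved (g i) ⟂ moved (g j)

/-- the dimension of the moved space -/
noncomputable def mdim {n : ℕ} (g : Isom n) : ℕ := Module.finrank ℝ (moved g)

open Classical in
/-- the points of `X` which every `g i` maps into `X` -/
noncomputable def kept {n m : ℕ} (g : Fin m → Isom n) (X : Finset (E n)) : Finset (E n) :=
  X.filter (fun x => ∀ i, g i x ∈ X)

/-- `sum over the sets J of at most K indices of A(n - sum_{i not in J} dim M_i, θ)` -/
noncomputable def codeSum {n m : ℕ} (K : ℕ) (θ : ℝ) (g : Fin m → Isom n) : ℕ :=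
  ∑ J ∈ (Finset.univ : Finset (Finset (Fin m))).filter (fun J => J.card ≤ K),
    sphMax (n - ∑ i ∈ Jᶜ, mdim (g i)) θ

/-- `c_+ = limsup log_2 τ(d) / d` -/
noncomputable def cplus : ℝ := limsup (fun d : ℕ => Real.logb 2 (kissing d) / d) atTop

end Pool.Agent.H161R2.KissSym
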