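import Pool.Agent.H818R2.Kiss4

/-! Spherical codes invariant under commuting orthogonal involutions with orthogonal `(-1)`-spaces. -/

open scoped InnerProductSpace
open Filter Topology

namespace Pool.Agent.H161R2.KissSym

open Pool.Agent.H818R2

/-- a spherical code inside a subspace -/
lemma card_le_sub {θ : ℝ} (hs : 0 < Real.sin (θ / 2)) {n : ℕ}
    (W : Submodule ℝ (EuclideanSpace ℝ (Fin n)))
    {X : Finset (EuclideanSpace ℝ (Fin n))} (hX : IsSphCode n θ X) (hW : ∀ x ∈ X, x ∈ W) :
    X.card ≤ sphMax (Module.finrank ℝ W) θ := by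
  classical
  rcases Nat.eq_zero_or_pos (Module.finrank ℝ W) with h0 | h0
  · have hE : X = ∅ := by
      by_contra hne
      obtain ⟨x, hx⟩ := Finset.nonempty_iff_ne_empty.2 hne
      have h1 := hW x hx
      rw [Submodule.finrank_eq_zero.1 h0, Submodule.mem_bot] at h1
      have h2 := hX.1 x hx
      rw [h1, norm_zero] at h2
      exact zero_ne_one h2
    rw [hE]; simp
  · have : NeZero (Module.finrank ℝ W) := ⟨by omega⟩
    set b := (stdOrthonormalBasis ℝ W).repr with hb
    set f : {x // x ∈ X} → EuclideanSpace ℝ (Fin (Module.finrank ℝ W)) :=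
      fun x => b ⟨x.1, hW x.1 x.2⟩ with hf
    have hinj : Function.Injective f := by
      intro x y hxy
      have h1 := b.injective hxy
      exact Subtype.ext (congrArg (fun z : W => (z : EuclideanSpace ℝ (Fin n))) h1)
    have hin : ∀ x y : {x // x ∈ X}, ⟪f x, f y⟫_ℝ = ⟪x.1, y.1⟫_ℝ := by
      intro x y
      rw [hf]
      simp only [LinearIsometryEquiv.inner_map_map]
      rfl
    have hcard : (X.attach.image f).card = X.card := by
      rw [Finset.card_image_of_injective _ hinj, Finset.card_attach]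
    rw [← hcard]
    apply le_sphMax hs
    constructor
    · intro u hu
      obtain ⟨x, -, rfl⟩ := Finset.mem_image.1 hu
      rw [hf]
      simp only [LinearIsometryEquiv.norm_map]
      exact hX.1 x.1 x.2
    · intro u hu v hv huv
      obtain ⟨x, -, rfl⟩ := Finset.mem_image.1 hu
      obtain ⟨y, -, rfl⟩ := Finset.mem_image.1 hv
      rw [hin]
      exact hX.2 x.1 x.2 y.1 y.2 (fun hh => huv (by rw [Subtype.ext hh]))

/-- dimension of a sum of pairwise orthogonal subspaces -/
lemma finrank_sup {n m : ℕ} (V : Fin m → Submodule ℝ (EuclideanSpace ℝ (Fin n)))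
    (hV : ∀ i j, i ≠ j → V i ⟂ V j) (S : Finset (Fin m)) :
    Module.finrank ℝ ↥(S.sup V) = ∑ i ∈ S, Module.finrank ℝ (V i) := by
  classical
  induction S using Finset.induction_on with
  | empty => simp
  | insert i S hi ih =>
    rw [Finset.sup_insert, Finset.sum_insert hi, ← ih]
    have h1 : V i ⟂ S.sup V := by
      rw [Submodule.isOrtho_iff_le]
      have h2 : S.sup V ≤ (V i)ᗮ := by
        apply Finset.sup_le
        intro j hj
        have : i ≠ j := fun h => hi (h ▸ hj)
        exact (hV j i this.symm)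
      intro x hx
      rw [Submodule.mem_orthogonal]
      intro y hy
      have := h2 hy
      rw [Submodule.mem_orthogonal] at this
      rw [real_inner_comm]
      exact this x hx
    have h3 := Submodule.finrank_sup_add_finrank_inf_eq (V i) (S.sup V)
    rw [(disjoint_iff.1 h1.disjoint), finrank_bot] at h3
    omega

lemma finrank_orth {n m : ℕ} (V : Fin m → Submodule ℝ (EuclideanSpace ℝ (Fin n)))
    (hV : ∀ i j, i ≠ j → V i ⟂ V j) (S : Finset (Fin m)) :
    Module.finrank ℝ ↥(S.sup V)ᗮ = n - ∑ i ∈ S, Module.finrank ℝ (V i) := by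
  have h1 := Submodule.finrank_add_finrank_orthogonal (S.sup V)
  rw [finrank_sup V hV S, finrank_euclideanSpace_fin] at h1
  omega

/-- Bessel's inequality for pairwise orthogonal subspaces -/
lemma bessel {n m : ℕ} (V : Fin m → Submodule ℝ (EuclideanSpace ℝ (Fin n)))
    (hV : ∀ i j, i ≠ j → V i ⟂ V j) (x : EuclideanSpace ℝ (Fin n)) :
    ∑ i, ‖(V i).starProjection x‖ ^ 2 ≤ ‖x‖ ^ 2 := by
  classical
  set y := ∑ i, (V i).starProjection x with hy
  have h0 : ∀ i, ⟪x, (V i).starProjection x⟫_ℝ = ‖(V i).starProjection x‖ ^ 2 := by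
    intro i
    have h := Submodule.starProjection_inner_eq_zero (K := V i) x ((V i).starProjection x)
      (Submodule.starProjection_apply_mem _ _)
    rw [inner_sub_left, real_inner_self_eq_norm_sq] at h
    linarith
  have h1 : ⟪x, y⟫_ℝ = ∑ i, ‖(V i).starProjection x‖ ^ 2 := by
    rw [hy, inner_sum]
    exact Finset.sum_congr rfl (fun i _ => h0 i)
  have h2 : ⟪y, y⟫_ℝ = ∑ i, ‖(V i).starProjection x‖ ^ 2 := by
    rw [hy, sum_inner]
    apply Finset.sum_congr rfl
    intro i _
    rw [inner_sum, Finset.sum_eq_single i]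
    · rw [real_inner_self_eq_norm_sq]
    · intro j _ hj
      have := hV j i hj
      rw [Submodule.isOrtho_iff_inner_eq] at this
      rw [real_inner_comm]
      exact this _ (Submodule.starProjection_apply_mem _ _) _ (Submodule.starProjection_apply_mem _ _)
    · intro h; exact absurd (Finset.mem_univ i) h
  have h3 : 0 ≤ ‖x - y‖ ^ 2 := by positivity
  rw [norm_sub_sq_real, h1, ← real_inner_self_eq_norm_sq y, h2] at h3
  linarith

/-- a code all of whose points have only large or vanishing projections to the `V i` -/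
theorem card_le_core {θ : ℝ} (hs : 0 < Real.sin (θ / 2)) {K : ℕ}
    (hK : 1 < (K + 1) * Real.sin (θ / 2) ^ 2) {n m : ℕ}
    (V : Fin m → Submodule ℝ (EuclideanSpace ℝ (Fin n)))
    (hV : ∀ i j, i ≠ j → V i ⟂ V j)
    {X : Finset (EuclideanSpace ℝ (Fin n))} (hX : IsSphCode n θ X)
    (key : ∀ x ∈ X, ∀ i, (V i).starProjection x ≠ 0 →
      Real.sin (θ / 2) ^ 2 ≤ ‖(V i).starProjection x‖ ^ 2) :
    X.card ≤ ∑ J ∈ (Finset.univ : Finset (Finset (Fin m))).filter (fun J => J.card ≤ K),
      sphMax (n - ∑ i ∈ Jᶜ, Module.finrank ℝ (V i)) θ := by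
  classical
  set supp : EuclideanSpace ℝ (Fin n) → Finset (Fin m) :=
    fun x => Finset.univ.filter (fun i => (V i).starProjection x ≠ 0) with hsupp
  have hcard : ∀ x ∈ X, (supp x).card ≤ K := by
    intro x hx
    by_contra hlt
    push Not at hlt
    have h1 := bessel V hV x
    rw [hX.1 x hx] at h1
    have h2 : ((supp x).card : ℝ) * Real.sin (θ / 2) ^ 2 ≤ ∑ i, ‖(V i).starProjection x‖ ^ 2 := by
      calc ((supp x).card : ℝ) * Real.sin (θ / 2) ^ 2
          = ∑ i ∈ supp x, Real.sin (θ / 2) ^ 2 := by rw [Finset.sum_const, nsmul_eq_mul]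
        _ ≤ ∑ i ∈ supp x, ‖(V i).starProjection x‖ ^ 2 := by
            apply Finset.sum_le_sum
            intro i hi
            exact key x hx i (Finset.mem_filter.1 hi).2
        _ ≤ ∑ i, ‖(V i).starProjection x‖ ^ 2 := by
            apply Finset.sum_le_sum_of_subset_of_nonneg (Finset.subset_univ _)
            intro i _ _; positivity
    have h3 : ((K : ℝ) + 1) ≤ (supp x).card := by exact_mod_cast hlt
    have h4 : 0 < Real.sin (θ / 2) ^ 2 := by positivity
    have h5 : ((K : ℝ) + 1) * Real.sin (θ / 2) ^ 2 ≤ (supp x).card * Real.sin (θ / 2) ^ 2 :=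
      mul_le_mul_of_nonneg_right h3 h4.le
    norm_num at h1
    linarith
  rw [Finset.card_eq_sum_card_fiberwise (f := supp)
    (t := (Finset.univ : Finset (Finset (Fin m))).filter (fun J => J.card ≤ K))]
  · apply Finset.sum_le_sum
    intro J _
    rw [← finrank_orth V hV]
    apply card_le_sub hs
    · exact ⟨fun x hx => hX.1 x (Finset.mem_filter.1 hx).1, fun x hx y hy hxy =>
        hX.2 x (Finset.mem_filter.1 hx).1 y (Finset.mem_filter.1 hy).1 hxy⟩
    · intro x hx
      have hsx := (Finset.mem_filter.1 hx).2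
      have h1 : Jᶜ.sup V ≤ (ℝ ∙ x)ᗮ := by
        apply Finset.sup_le
        intro i hi y hy
        rw [Submodule.mem_orthogonal_singleton_iff_inner_right]
        have h2 : (V i).starProjection x = 0 := by
          by_contra hne
          have : i ∈ supp x := Finset.mem_filter.2 ⟨Finset.mem_univ _, hne⟩
          rw [hsx] at this
          exact (Finset.mem_compl.1 hi) this
        have h := Submodule.starProjection_inner_eq_zero (K := V i) x y hy
        rw [h2, sub_zero] at h
        exact h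
      rw [Submodule.mem_orthogonal]
      intro y hy
      have h2 := h1 hy
      rw [Submodule.mem_orthogonal_singleton_iff_inner_right] at h2
      rw [real_inner_comm]
      exact h2
  · intro x hx
    exact Finset.mem_coe.2 (Finset.mem_filter.2 ⟨Finset.mem_univ _, hcard x hx⟩)


/-- the moved space of an isometry: the orthogonal complement of its fixed space -/
noncomputable def moved {n : ℕ} (g : EuclideanSpace ℝ (Fin n) ≃ₗᵢ[ℝ] EuclideanSpace ℝ (Fin n)) :
    Submodule ℝ (EuclideanSpace ℝ (Fin n)) :=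
  (LinearMap.ker ((g.toLinearEquiv : EuclideanSpace ℝ (Fin n) →ₗ[ℝ] EuclideanSpace ℝ (Fin n)) -
    LinearMap.id))ᗮ

lemma moved_bound {n : ℕ} (g : EuclideanSpace ℝ (Fin n) ≃ₗᵢ[ℝ] EuclideanSpace ℝ (Fin n))
    (x : EuclideanSpace ℝ (Fin n)) : ‖g x - x‖ ≤ 2 * ‖(moved g).starProjection x‖ := by
  set p := (moved g).starProjection x with hp
  have h1 : x - p ∈ (moved g)ᗮ := Submodule.sub_starProjection_mem_orthogonal x
  unfold moved at h1
  rw [Submodule.orthogonal_orthogonal, LinearMap.mem_ker, LinearMap.sub_apply,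
    LinearMap.id_apply, sub_eq_zero] at h1
  have h2 : g (x - p) = x - p := h1
  rw [map_sub] at h2
  have h3 : g x - x = g p - p := by
    have h4 : g x = x - p + g p := by rw [← h2]; abel
    rw [h4]; abel
  rw [h3]
  calc ‖g p - p‖ ≤ ‖g p‖ + ‖p‖ := norm_sub_le _ _
    _ = 2 * ‖p‖ := by rw [g.norm_map]; ring

lemma proj_eq_zero {n : ℕ} (g : EuclideanSpace ℝ (Fin n) ≃ₗᵢ[ℝ] EuclideanSpace ℝ (Fin n))
    {x : EuclideanSpace ℝ (Fin n)} (hx : g x = x) : (moved g).starProjection x = 0 := by
  rw [Submodule.starProjection_apply_eq_zero_iff]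
  unfold moved
  rw [Submodule.orthogonal_orthogonal, LinearMap.mem_ker, LinearMap.sub_apply,
    LinearMap.id_apply, sub_eq_zero]
  exact hx

open Classical in
/-- the points of `X` which all `g i` map into `X` -/
theorem card_le {θ : ℝ} (hs : 0 < Real.sin (θ / 2)) {K : ℕ}
    (hK : 1 < (K + 1) * Real.sin (θ / 2) ^ 2) {n m : ℕ}
    (g : Fin m → (EuclideanSpace ℝ (Fin n) ≃ₗᵢ[ℝ] EuclideanSpace ℝ (Fin n)))
    (hV : ∀ i j, i ≠ j → moved (g i) ⟂ moved (g j))
    {X : Finset (EuclideanSpace ℝ (Fin n))} (hX : IsSphCode n θ X) :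
    (X.filter (fun x => ∀ i, g i x ∈ X)).card ≤
      ∑ J ∈ (Finset.univ : Finset (Finset (Fin m))).filter (fun J => J.card ≤ K),
      sphMax (n - ∑ i ∈ Jᶜ, Module.finrank ℝ (moved (g i))) θ := by
  apply card_le_core hs hK (fun i => moved (g i)) hV
  · exact ⟨fun x hx => hX.1 x (Finset.mem_filter.1 hx).1, fun x hx y hy hxy =>
        hX.2 x (Finset.mem_filter.1 hx).1 y (Finset.mem_filter.1 hy).1 hxy⟩
  · intro x hx i hi
    obtain ⟨hx, hgx⟩ := Finset.mem_filter.1 hx
    have hne : g i x ≠ x := fun h => hi (proj_eq_zero (g i) h)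
    have h2 := hX.2 _ (hgx i) x hx hne
    have h3 := norm_sub_sq_real (g i x) x
    rw [(g i).norm_map, hX.1 x hx] at h3
    rw [cos_eq] at h2
    have h4 := moved_bound (g i) x
    have h5 : ‖g i x - x‖ ^ 2 ≤ (2 * ‖(moved (g i)).starProjection x‖) ^ 2 :=
      pow_le_pow_left₀ (norm_nonneg _) h4 2
    rw [mul_pow] at h5
    nlinarith

end Pool.Agent.H161R2.KissSym
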