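import Pool.Agent.H161R2.KissSym

/-! Kissing configurations invariant under orthogonal involutions: explicit and asymptotic bounds. -/

open scoped InnerProductSpace
open Filter Topology

namespace Pool.Agent.H161R2.KissSym

open Pool.Agent.H818R2

lemma sphMax_zero (θ : ℝ) : sphMax 0 θ = 0 := by
  unfold sphMax
  have h : {m | ∃ P : Finset (EuclideanSpace ℝ (Fin 0)), IsSphCode 0 θ P ∧ P.card = m} = {0} := by
    ext m
    constructor
    · rintro ⟨P, hP, rfl⟩
      have hE : P = ∅ := by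
        by_contra hne
        obtain ⟨x, hx⟩ := Finset.nonempty_iff_ne_empty.2 hne
        have h2 := hP.1 x hx
        rw [Subsingleton.elim x 0, norm_zero] at h2
        exact zero_ne_one h2
      simp [hE]
    · rintro rfl
      exact ⟨∅, ⟨by simp, by simp⟩, by simp⟩
  rw [h, csSup_singleton]

lemma sphMax_mono {θ : ℝ} (hs : 0 < Real.sin (θ / 2)) {a b : ℕ} (hab : a ≤ b) :
    sphMax a θ ≤ sphMax b θ := by
  rcases Nat.eq_zero_or_pos a with h | h
  · subst h
    rw [sphMax_zero]
    exact Nat.zero_le _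
  · induction b, hab using Nat.le_induction with
    | base => exact le_rfl
    | succ b hb ih =>
      have : NeZero b := ⟨by omega⟩
      exact ih.trans (sphMax_mono_succ hs)

lemma card_small (m K : ℕ) :
    ((Finset.univ : Finset (Finset (Fin m))).filter (fun J => J.card ≤ K)).card ≤ (m + 1) ^ K := by
  classical
  have h : (Finset.univ.filter (fun J : Finset (Fin m) => J.card ≤ K)) ⊆
      Finset.univ.image (fun f : Fin K → Option (Fin m) =>
        Finset.univ.biUnion (fun i => (f i).toFinset)) := by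
    intro J hJ
    have hJ' := (Finset.mem_filter.1 hJ).2
    rw [Finset.mem_image]
    refine ⟨fun i => J.toList[i.1]?, Finset.mem_univ _, ?_⟩
    ext a
    simp only [Finset.mem_biUnion, Finset.mem_univ, true_and, Option.mem_toFinset, Option.mem_def]
    constructor
    · rintro ⟨i, hi⟩
      have := List.mem_of_getElem? hi
      simpa using this
    · intro ha
      have hl : a ∈ J.toList := by simpa using ha
      obtain ⟨k, hk⟩ := List.mem_iff_getElem?.1 hl
      have hk' : k < J.toList.length := by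
        by_contra hc
        rw [List.getElem?_eq_none (by omega)] at hk
        exact absurd hk (by simp)
      rw [Finset.length_toList] at hk'
      exact ⟨⟨k, by omega⟩, hk⟩
  refine (Finset.card_le_card h).trans (Finset.card_image_le.trans ?_)
  simp

lemma sin_kiss : Real.sin (Real.pi / 3 / 2) = 1 / 2 := by
  rw [show Real.pi / 3 / 2 = Real.pi / 6 by ring, Real.sin_pi_div_six]

open Classical in
theorem kiss_le {n m k : ℕ} (hm : 4 ≤ m)
    (g : Fin m → (EuclideanSpace ℝ (Fin n) ≃ₗᵢ[ℝ] EuclideanSpace ℝ (Fin n)))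
    (hV : ∀ i j, i ≠ j → moved (g i) ⟂ moved (g j))
    (hk : ∀ i, k ≤ Module.finrank ℝ (moved (g i)))
    {X : Finset (EuclideanSpace ℝ (Fin n))} (hX : IsSphCode n (Real.pi / 3) X) :
    (X.filter (fun x => ∀ i, g i x ∈ X)).card ≤ (m + 1) ^ 4 * kissing (n - (m - 4) * k) := by
  have hs : 0 < Real.sin (Real.pi / 3 / 2) := by rw [sin_kiss]; norm_num
  refine (card_le hs (K := 4) (by rw [sin_kiss]; norm_num) g hV hX).trans ?_
  calc ∑ J ∈ (Finset.univ : Finset (Finset (Fin m))).filter (fun J => J.card ≤ 4),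
      sphMax (n - ∑ i ∈ Jᶜ, Module.finrank ℝ (moved (g i))) (Real.pi / 3)
      ≤ ∑ J ∈ (Finset.univ : Finset (Finset (Fin m))).filter (fun J => J.card ≤ 4),
        kissing (n - (m - 4) * k) := by
        apply Finset.sum_le_sum
        intro J hJ
        apply sphMax_mono hs
        have h1 : (m - 4) * k ≤ ∑ i ∈ Jᶜ, Module.finrank ℝ (moved (g i)) := by
          calc (m - 4) * k ≤ Jᶜ.card * k := by
                apply Nat.mul_le_mul_right
                rw [Finset.card_compl, Fintype.card_fin]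
                have := (Finset.mem_filter.1 hJ).2
                omega
            _ = ∑ _i ∈ Jᶜ, k := by rw [Finset.sum_const, smul_eq_mul]
            _ ≤ _ := Finset.sum_le_sum (fun i _ => hk i)
        omega
    _ ≤ (m + 1) ^ 4 * kissing (n - (m - 4) * k) := by
        rw [Finset.sum_const, smul_eq_mul]
        exact Nat.mul_le_mul_right _ (card_small m 4)

lemma m_le {n m k : ℕ} (hk0 : 0 < k)
    (V : Fin m → Submodule ℝ (EuclideanSpace ℝ (Fin n)))
    (hV : ∀ i j, i ≠ j → V i ⟂ V j) (hk : ∀ i, k ≤ Module.finrank ℝ (V i)) : m ≤ n := by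
  have h1 := finrank_sup V hV Finset.univ
  have h2 : Module.finrank ℝ ↥(Finset.univ.sup V) ≤ n := by
    have := Submodule.finrank_le (Finset.univ.sup V)
    rwa [finrank_euclideanSpace_fin] at this
  have h3 : m * k ≤ ∑ i, Module.finrank ℝ (V i) := by
    calc m * k = ∑ i : Fin m, k := by simp
      _ ≤ _ := Finset.sum_le_sum (fun i _ => hk i)
  have h4 : m ≤ m * k := Nat.le_mul_of_pos_right m hk0
  omega

lemma poly_le {a : ℝ} (ha : 0 < a) :
    ∀ᶠ n : ℕ in atTop, ((n : ℝ) + 1) ^ 4 ≤ (2 : ℝ) ^ (a * n) := by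
  have hr : (1 : ℝ) < 2 ^ a := Real.one_lt_rpow (by norm_num) ha
  have h := tendsto_pow_const_div_const_pow_of_one_lt 4 hr
  have h2 := h.eventually (gt_mem_nhds (show (0 : ℝ) < 1 / 16 by norm_num))
  filter_upwards [h2, eventually_ge_atTop 1] with n hn hn1
  have hp : (0 : ℝ) < (2 ^ a) ^ n := by positivity
  rw [div_lt_iff₀ hp] at hn
  have h3 : ((n : ℝ) + 1) ^ 4 ≤ 16 * (n : ℝ) ^ 4 := by
    have h5 : (1 : ℝ) ≤ n := by exact_mod_cast hn1
    calc ((n : ℝ) + 1) ^ 4 ≤ (2 * n) ^ 4 := by
          apply pow_le_pow_left₀ (by positivity)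
          linarith
      _ = _ := by ring
  have h4 : (2 : ℝ) ^ (a * n) = (2 ^ a) ^ n := by
    rw [Real.rpow_mul (by norm_num), Real.rpow_natCast]
  rw [h4]
  linarith

open Classical in
theorem asym {δ : ℝ} (h0 : 0 ≤ δ) (h1 : δ < 1) {ε : ℝ} (hε : 0 < ε) :
    ∀ᶠ n : ℕ in atTop, ∀ (m k : ℕ)
      (g : Fin m → (EuclideanSpace ℝ (Fin n) ≃ₗᵢ[ℝ] EuclideanSpace ℝ (Fin n))),
      4 ≤ m → 0 < k → (∀ i j, i ≠ j → moved (g i) ⟂ moved (g j)) →
      (∀ i, k ≤ Module.finrank ℝ (moved (g i))) → δ * n ≤ (m - 4 : ℕ) * k →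
      ∀ X : Finset (EuclideanSpace ℝ (Fin n)), IsSphCode n (Real.pi / 3) X →
        ((X.filter (fun x => ∀ i, g i x ∈ X)).card : ℝ) ≤
          (2 : ℝ) ^ (((1 - δ) * limsup (fun d : ℕ => Real.logb 2 (kissing d) / d) atTop
            + ε) * n) := by
  have hs : 0 < Real.sin (Real.pi / 3 / 2) := by rw [sin_kiss]; norm_num
  set L := limsup (fun d : ℕ => Real.logb 2 (kissing d) / d) atTop with hL
  have hfun : (fun d : ℕ => Real.logb 2 (kissing d) / d) = codeRate (Real.pi / 3) := rfl
  have hbd : IsBoundedUnder (· ≤ ·) atTop (fun d : ℕ => Real.logb 2 (kissing d) / d) :=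
    ⟨_, eventually_map.2 (Eventually.of_forall (fun d => codeRate_le hs d))⟩
  have hL0 : 0 ≤ L := by
    rw [hL]
    apply le_limsup_of_frequently_le _ hbd
    exact (Eventually.of_forall (fun d => codeRate_nonneg (Real.pi / 3) d)).frequently
  have hlt : ∀ᶠ d : ℕ in atTop, Real.logb 2 (kissing d) / d < L + ε / 2 :=
    eventually_lt_of_limsup_lt (by rw [← hL]; linarith) hbd
  have hk2 : ∀ᶠ d : ℕ in atTop, (kissing d : ℝ) ≤ 2 ^ ((L + ε / 2) * d) := by
    filter_upwards [hlt, eventually_gt_atTop 0] with d hd hd0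
    have hd' : (0 : ℝ) < d := by exact_mod_cast hd0
    rw [div_lt_iff₀ hd'] at hd
    rcases Nat.eq_zero_or_pos (kissing d) with h | h
    · rw [h]
      simp only [Nat.cast_zero]
      positivity
    · rw [← Real.logb_le_iff_le_rpow (by norm_num) (by exact_mod_cast h)]
      exact hd.le
  have hfl : Tendsto (fun n : ℕ => ⌊(1 - δ) * n⌋₊) atTop atTop := by
    apply tendsto_nat_floor_atTop.comp
    exact Tendsto.const_mul_atTop (by linarith) tendsto_natCast_atTop_atTop
  filter_upwards [hfl.eventually hk2, poly_le (a := ε / 2) (by linarith)] with n hn hp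
  intro m k g hm hk0 hV hk hδ X hX
  have h2 := kiss_le hm g hV hk hX
  set j := ⌊(1 - δ) * n⌋₊ with hj
  have h3 : n - (m - 4) * k ≤ j := by
    apply Nat.le_floor
    rcases le_total ((m - 4) * k) n with h | h
    · rw [Nat.cast_sub h]
      push_cast
      linarith
    · rw [Nat.sub_eq_zero_of_le h]
      simp only [Nat.cast_zero]
      have : (0 : ℝ) ≤ n := Nat.cast_nonneg n
      nlinarith
  have h4 : kissing (n - (m - 4) * k) ≤ kissing j := sphMax_mono hs h3
  have h5 : m ≤ n := m_le hk0 (fun i => moved (g i)) hV hk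
  have h6 : ((X.filter (fun x => ∀ i, g i x ∈ X)).card : ℝ) ≤ ((n : ℝ) + 1) ^ 4 * kissing j := by
    have h7 : (X.filter (fun x => ∀ i, g i x ∈ X)).card ≤ (n + 1) ^ 4 * kissing j :=
      h2.trans (Nat.mul_le_mul (Nat.pow_le_pow_left (by omega) 4) h4)
    exact_mod_cast h7
  have hn0 : (0 : ℝ) ≤ n := Nat.cast_nonneg n
  have hjle : (j : ℝ) ≤ (1 - δ) * n := Nat.floor_le (by nlinarith)
  calc ((X.filter (fun x => ∀ i, g i x ∈ X)).card : ℝ) ≤ ((n : ℝ) + 1) ^ 4 * kissing j := h6
    _ ≤ (2 : ℝ) ^ (ε / 2 * n) * (2 : ℝ) ^ ((L + ε / 2) * j) := by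
        apply mul_le_mul hp hn (Nat.cast_nonneg _) (by positivity)
    _ = (2 : ℝ) ^ (ε / 2 * n + (L + ε / 2) * j) := by rw [← Real.rpow_add (by norm_num)]
    _ ≤ (2 : ℝ) ^ (((1 - δ) * L + ε) * n) := by
        apply Real.rpow_le_rpow_of_exponent_le (by norm_num)
        have h8 : (L + ε / 2) * j ≤ (L + ε / 2) * ((1 - δ) * n) :=
          mul_le_mul_of_nonneg_left hjle (by linarith)
        have h9 : 0 ≤ ε * δ * n := by positivity
        nlinarith

end Pool.Agent.H161R2.KissSym
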