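import Pool.Agent.H161R2.KissSym2

/-! The lower bound `(2/√3)^n ≤ τ(n)`. -/

open scoped InnerProductSpace
open Filter Topology MeasureTheory Metric

namespace Pool.Agent.H161R2.KissSym

open Pool.Agent.H818R2

/-- `(2/√3)^n ≤ τ(n)` in the form `1 ≤ τ(n) (√3/2)^n` -/
theorem wyner (n : ℕ) [NeZero n] : 1 ≤ (kissing n : ℝ) * (√3 / 2) ^ n := by
  classical
  have hs : 0 < Real.sin (Real.pi / 3 / 2) := by rw [sin_kiss]; norm_num
  obtain ⟨P, hP, hPc⟩ := Nat.sSup_mem (sph_nonempty n (Real.pi / 3)) (sph_bdd hs)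
  change P.card = sphMax n (Real.pi / 3) at hPc
  have hn : 0 < n := Nat.pos_of_ne_zero (NeZero.ne n)
  have hcos : Real.cos (Real.pi / 3) = 1 / 2 := Real.cos_pi_div_three
  -- every unit vector is close to a code point
  have hcl : ∀ u : EuclideanSpace ℝ (Fin n), ‖u‖ = 1 → ∃ p ∈ P, 1 / 2 ≤ ⟪u, p⟫_ℝ := by
    intro u hu
    by_contra hcon
    push Not at hcon
    have hnot : u ∉ P := by
      intro h
      have := hcon u h
      rw [real_inner_self_eq_norm_sq, hu] at this
      norm_num at this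
    have hcode : IsSphCode n (Real.pi / 3) (insert u P) := by
      constructor
      · intro x hx
        rcases Finset.mem_insert.1 hx with rfl | hx
        · exact hu
        · exact hP.1 x hx
      · intro x hx y hy hxy
        rw [hcos]
        rcases Finset.mem_insert.1 hx with h | hx
        · rcases Finset.mem_insert.1 hy with h' | hy
          · exact absurd (h.trans h'.symm) hxy
          · rw [h]; exact (hcon y hy).le
        · rcases Finset.mem_insert.1 hy with h' | hy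
          · rw [h', real_inner_comm]; exact (hcon x hx).le
          · have := hP.2 x hx y hy hxy
            rwa [hcos] at this
    have h1 := le_sphMax hs hcode
    rw [Finset.card_insert_of_notMem hnot, hPc] at h1
    omega
  have h3 : (√3 / 2) ^ 2 = (3 / 4 : ℝ) := by
    rw [div_pow, Real.sq_sqrt (by norm_num)]; norm_num
  have hcov : closedBall (0 : EuclideanSpace ℝ (Fin n)) 1 ⊆
      ⋃ p ∈ P, closedBall ((1 / 2 : ℝ) • p) (√3 / 2) := by
    intro x hx
    rw [mem_closedBall_zero_iff] at hx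
    obtain ⟨u, hu, hxu⟩ : ∃ u : EuclideanSpace ℝ (Fin n), ‖u‖ = 1 ∧ x = ‖x‖ • u := by
      rcases eq_or_ne x 0 with h | h
      · have : Nontrivial (EuclideanSpace ℝ (Fin n)) := by
          have : Nonempty (Fin n) := ⟨⟨0, hn⟩⟩
          infer_instance
        obtain ⟨u, hu⟩ := exists_norm_eq (EuclideanSpace ℝ (Fin n)) (zero_le_one)
        exact ⟨u, hu, by rw [h, norm_zero, zero_smul]⟩
      · have hx0 : ‖x‖ ≠ 0 := norm_ne_zero_iff.2 h
        refine ⟨‖x‖⁻¹ • x, ?_, ?_⟩
        · rw [norm_smul, norm_inv, norm_norm, inv_mul_cancel₀ hx0]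
        · rw [smul_smul, mul_inv_cancel₀ hx0, one_smul]
    obtain ⟨p, hp, hup⟩ := hcl u hu
    simp only [Set.mem_iUnion]
    refine ⟨p, hp, ?_⟩
    rw [mem_closedBall, dist_eq_norm]
    apply le_of_sq_le_sq _ (by positivity)
    rw [norm_sub_sq_real, h3, inner_smul_right, norm_smul, hP.1 p hp]
    have h4 : ⟪x, p⟫_ℝ = ‖x‖ * ⟪u, p⟫_ℝ := by
      conv_lhs => rw [hxu]
      rw [inner_smul_left]
      simp
    rw [h4]
    have h5 : ‖x‖ * (1 / 2) ≤ ‖x‖ * ⟪u, p⟫_ℝ := mul_le_mul_of_nonneg_left hup (norm_nonneg _)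
    have h6 := norm_nonneg x
    norm_num
    nlinarith
  have hm : volume.real (closedBall (0 : EuclideanSpace ℝ (Fin n)) 1) ≤
      ∑ p ∈ P, volume.real (closedBall ((1 / 2 : ℝ) • p) (√3 / 2)) := by
    refine (measureReal_mono hcov ?_).trans (measureReal_biUnion_finset_le _ _)
    exact ((measure_biUnion_lt_top P.finite_toSet
      (fun p _ => measure_closedBall_lt_top)).ne)
  rw [vol_closedBall _ (by norm_num)] at hm
  have h7 : ∀ p ∈ P, volume.real (closedBall ((1 / 2 : ℝ) • p) (√3 / 2)) =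
      (√3 / 2) ^ n * vb (EuclideanSpace ℝ (Fin n)) := by
    intro p _
    rw [vol_closedBall _ (by positivity), finrank_euclideanSpace_fin]
  rw [Finset.sum_congr rfl h7, Finset.sum_const, nsmul_eq_mul, one_pow, one_mul, hPc] at hm
  have hv := vb_pos (E := EuclideanSpace ℝ (Fin n))
  have h8 : 1 * vb (EuclideanSpace ℝ (Fin n)) ≤
      ((sphMax n (Real.pi / 3) : ℝ) * (√3 / 2) ^ n) * vb (EuclideanSpace ℝ (Fin n)) := by
    rw [one_mul, mul_assoc]; exact hm
  exact le_of_mul_le_mul_right h8 hv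

/-- `2^(0.2075 n) ≤ τ(n)` -/
theorem wyner' (n : ℕ) (hn : 0 < n) : (2 : ℝ) ^ ((83 / 400 : ℝ) * n) ≤ kissing n := by
  have : NeZero n := ⟨by omega⟩
  have h1 := wyner n
  have h0 : (0 : ℝ) < √3 / 2 := by positivity
  have h2 : (2 : ℝ) ^ (83 / 400 : ℝ) * (√3 / 2) ≤ 1 := by
    have h3 : ((2 : ℝ) ^ (83 / 400 : ℝ) * (√3 / 2)) ^ 400 ≤ 1 := by
      rw [mul_pow, ← Real.rpow_natCast, ← Real.rpow_mul (by norm_num)]
      have h4 : (√3 / 2) ^ 400 = (3 / 4 : ℝ) ^ 200 := by
        rw [show (400 : ℕ) = 2 * 200 by norm_num, pow_mul, div_pow, Real.sq_sqrt (by norm_num)]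
        norm_num
      rw [h4]
      have h5 : (2 : ℝ) ^ ((83 / 400 : ℝ) * ((400 : ℕ) : ℝ)) = 2 ^ (83 : ℕ) := by
        rw [← Real.rpow_natCast]
        norm_num
      rw [h5]
      norm_num
    by_contra hcon
    push Not at hcon
    have := one_lt_pow₀ hcon (show (400 : ℕ) ≠ 0 by norm_num)
    linarith
  have h3 : (2 : ℝ) ^ ((83 / 400 : ℝ) * n) * (√3 / 2) ^ n ≤ 1 := by
    rw [Real.rpow_mul (by norm_num), Real.rpow_natCast, ← mul_pow]
    exact pow_le_one₀ (by positivity) h2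
  have h4 : (0 : ℝ) < (√3 / 2) ^ n := by positivity
  have h5 : (2 : ℝ) ^ ((83 / 400 : ℝ) * n) * (√3 / 2) ^ n ≤ kissing n * (√3 / 2) ^ n := h3.trans h1
  exact le_of_mul_le_mul_right h5 h4

end Pool.Agent.H161R2.KissSym
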