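import Mathlib
import Pool.Agent.H161R2.SymFU

/-! Colourings of pairs which are invariant under the symmetric group `S_m`: boxes. -/

set_option autoImplicit false

open Finset

namespace H161R2.SymR

/-- some set of at least `k` points is monochromatic -/
def Mono {V : Type} {r : ℕ} (col : V → V → Fin r) (k : ℕ) : Prop :=
  ∃ S : Finset V, k ≤ S.card ∧ ∃ c : Fin r, ∀ x ∈ S, ∀ y ∈ S, x ≠ y → col x y = c

/-- the tuple of points of the box -/
def boxTuple {e t m : ℕ} (φ : Fin e × Fin t ↪ Fin m) (x : Fin e → Fin t) : Fin e ↪ Fin m where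
  toFun i := φ (i, x i)
  inj' _ _ h := (Prod.ext_iff.1 (φ.injective h)).1

theorem boxTuple_apply {e t m : ℕ} (φ : Fin e × Fin t ↪ Fin m) (x : Fin e → Fin t) (i : Fin e) :
    boxTuple φ x i = φ (i, x i) := rfl

theorem boxTuple_range {e t m : ℕ} (φ : Fin e × Fin t ↪ Fin m) (x y : Fin e → Fin t)
    (h : Set.range (boxTuple φ x) = Set.range (boxTuple φ y)) : x = y := by
  funext i
  have h1 : boxTuple φ x i ∈ Set.range (boxTuple φ y) := by
    rw [← h]; exact ⟨i, rfl⟩
  obtain ⟨j, hj⟩ := h1
  rw [boxTuple_apply, boxTuple_apply] at hj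
  have h2 := Prod.ext_iff.1 (φ.injective hj)
  have h3 : j = i := h2.1
  subst h3
  exact h2.2.symm

/-- Two pairs of points of the box with the same difference set are in the same orbit. -/
theorem exists_perm {e t m : ℕ} (φ : Fin e × Fin t ↪ Fin m) (x y x' y' : Fin e → Fin t)
    (h : ∀ i, x i = y i ↔ x' i = y' i) :
    ∃ g : Equiv.Perm (Fin m), (∀ i, g (boxTuple φ x i) = boxTuple φ x' i) ∧
      (∀ i, g (boxTuple φ y i) = boxTuple φ y' i) := by
  classical
  let σ : Fin e → Equiv.Perm (Fin t) := fun i =>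
    Equiv.swap (Equiv.swap (x i) (x' i) (y i)) (y' i) * Equiv.swap (x i) (x' i)
  have hx : ∀ i, σ i (x i) = x' i := by
    intro i
    simp only [σ, Equiv.Perm.mul_apply, Equiv.swap_apply_left]
    by_cases hi : x i = y i
    · rw [← hi, Equiv.swap_apply_left, (h i).1 hi, Equiv.swap_self]; rfl
    · apply Equiv.swap_apply_of_ne_of_ne
      · intro h1
        apply hi
        have h2 : Equiv.swap (x i) (x' i) (x i) = Equiv.swap (x i) (x' i) (y i) := by
          rw [Equiv.swap_apply_left]; exact h1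
        exact (Equiv.swap (x i) (x' i)).injective h2
      · intro h1
        exact hi ((h i).2 h1)
  have hy : ∀ i, σ i (y i) = y' i := by
    intro i
    simp only [σ, Equiv.Perm.mul_apply, Equiv.swap_apply_left]
  refine ⟨Equiv.Perm.viaFintypeEmbedding (Equiv.prodShear (Equiv.refl (Fin e)) σ) φ,
    fun i => ?_, fun i => ?_⟩
  · rw [boxTuple_apply, Equiv.Perm.viaFintypeEmbedding_apply_image, boxTuple_apply]
    simp [Equiv.prodShear, hx]
  · rw [boxTuple_apply, Equiv.Perm.viaFintypeEmbedding_apply_image, boxTuple_apply]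
    simp [Equiv.prodShear, hy]

/-- The box theorem: `e` coordinates, each with `t >= 2` values, give a monochromatic set with
`t ^ l` points. -/
theorem box (r l e : ℕ)
    (hFU : ∀ χ : Finset ℕ → Fin r,
      ∃ D : Fin l → Finset ℕ, (∀ i, D i ⊆ Finset.range e) ∧ (∀ i, (D i).Nonempty) ∧
        (∀ i j, i ≠ j → Disjoint (D i) (D j)) ∧
        ∃ c : Fin r, ∀ I : Finset (Fin l), I.Nonempty → χ (I.biUnion D) = c)
    (t m : ℕ) (ht : 2 ≤ t) (hm : e * t ≤ m) (V : Type)
    (act : Equiv.Perm (Fin m) → V → V) (v : (Fin e ↪ Fin m) → V)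
    (hv : ∀ (g : Equiv.Perm (Fin m)) (a : Fin e ↪ Fin m), act g (v a) = v (a.trans g.toEmbedding))
    (hinj : ∀ a b : Fin e ↪ Fin m, v a = v b → Set.range a = Set.range b)
    (col : V → V → Fin r)
    (hcol : ∀ (g : Equiv.Perm (Fin m)) (x y : V), col (act g x) (act g y) = col x y) :
    Mono col (t ^ l) := by
  classical
  have hcard : Fintype.card (Fin e × Fin t) ≤ Fintype.card (Fin m) := by simpa using hm
  obtain ⟨φ⟩ := Function.Embedding.nonempty_of_card_le hcard
  have : NeZero t := ⟨by omega⟩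
  -- transport
  have htr : ∀ x y x' y' : Fin e → Fin t, (∀ i, x i = y i ↔ x' i = y' i) →
      col (v (boxTuple φ x)) (v (boxTuple φ y)) = col (v (boxTuple φ x')) (v (boxTuple φ y')) := by
    intro x y x' y' h
    obtain ⟨g, h1, h2⟩ := exists_perm φ x y x' y' h
    rw [← hcol g, hv, hv]
    have e1 : (boxTuple φ x).trans g.toEmbedding = boxTuple φ x' := by
      ext i; simp [h1]
    have e2 : (boxTuple φ y).trans g.toEmbedding = boxTuple φ y' := by
      ext i; simp [h2]
    rw [e1, e2]
  let one : Fin t := ⟨1, ht⟩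
  have hone : (0 : Fin t) ≠ one := by
    intro h
    have := congrArg Fin.val h
    simp [one] at this
  let ind : Finset ℕ → Fin e → Fin t := fun F i => if (i : ℕ) ∈ F then one else 0
  let χ : Finset ℕ → Fin r := fun F => col (v (boxTuple φ fun _ => 0)) (v (boxTuple φ (ind F)))
  obtain ⟨D, hD1, hD2, hD3, c, hc⟩ := hFU χ
  let pt : (Fin l → Fin t) → Fin e → Fin t := fun z i =>
    if h : ∃ j, (i : ℕ) ∈ D j then z h.choose else 0
  have hpt : ∀ (z : Fin l → Fin t) (i : Fin e) (j : Fin l), (i : ℕ) ∈ D j → pt z i = z j := by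
    intro z i j hij
    have h : ∃ j, (i : ℕ) ∈ D j := ⟨j, hij⟩
    have h1 : h.choose = j := by
      by_contra hne
      exact (Finset.disjoint_left.1 (hD3 _ _ hne)) h.choose_spec hij
    simp only [pt]
    rw [dif_pos h, h1]
  have hpt0 : ∀ (z : Fin l → Fin t) (i : Fin e), (¬ ∃ j, (i : ℕ) ∈ D j) → pt z i = 0 := by
    intro z i h
    simp only [pt]
    rw [dif_neg h]
  have hptinj : Function.Injective pt := by
    intro z z' h
    funext j
    obtain ⟨a, ha⟩ := hD2 j
    have hae : a < e := Finset.mem_range.1 (hD1 j ha)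
    have h1 := congrFun h ⟨a, hae⟩
    rwa [hpt z ⟨a, hae⟩ j ha, hpt z' ⟨a, hae⟩ j ha] at h1
  let f : (Fin l → Fin t) → V := fun z => v (boxTuple φ (pt z))
  have hf : Function.Injective f := by
    intro z z' h
    exact hptinj (boxTuple_range φ _ _ (hinj _ _ h))
  refine ⟨Finset.univ.image f, ?_, c, ?_⟩
  · rw [Finset.card_image_of_injective _ hf]
    simp
  · intro x hx y hy hxy
    obtain ⟨z, -, rfl⟩ := Finset.mem_image.1 hx
    obtain ⟨z', -, rfl⟩ := Finset.mem_image.1 hy
    have hzz : z ≠ z' := fun h => hxy (by rw [h])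
    let I : Finset (Fin l) := Finset.univ.filter fun j => z j ≠ z' j
    have hI : I.Nonempty := by
      obtain ⟨j, hj⟩ := Function.ne_iff.1 hzz
      exact ⟨j, by simp [I, hj]⟩
    rw [← hc I hI]
    apply htr
    intro i
    by_cases h : ∃ j, (i : ℕ) ∈ D j
    · obtain ⟨j, hj⟩ := h
      rw [hpt z i j hj, hpt z' i j hj]
      by_cases hz : z j = z' j
      · have h1 : (i : ℕ) ∉ I.biUnion D := by
          intro h2
          obtain ⟨j', h3, h4⟩ := Finset.mem_biUnion.1 h2
          have h5 : j' = j := by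
            by_contra hne
            exact (Finset.disjoint_left.1 (hD3 _ _ hne)) h4 hj
          rw [h5] at h3
          simp [I, hz] at h3
        simp [ind, h1, hz]
      · have h1 : (i : ℕ) ∈ I.biUnion D :=
          Finset.mem_biUnion.2 ⟨j, by simp [I, hz], hj⟩
        simp only [ind, h1, if_true]
        exact ⟨fun h => absurd h hz, fun h => absurd h hone⟩
    · rw [hpt0 z i h, hpt0 z' i h]
      have h1 : (i : ℕ) ∉ I.biUnion D := by
        intro h2
        obtain ⟨j', -, h4⟩ := Finset.mem_biUnion.1 h2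
        exact h ⟨j', h4⟩
      simp [ind, h1]

end H161R2.SymR
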