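import Mathlib

set_option autoImplicit false

namespace H161R2.SymR

variable {K F : Type} [Field K] [Field F] [Algebra K F]

/-- the line of slope `a` in the plane over `F` -/
def line (a : F) : Submodule K (F × F) where
  carrier := {p | p.2 = a * p.1}
  add_mem' {p q} hp hq := by
    simp only [Set.mem_ofPred_eq, Prod.fst_add, Prod.snd_add] at *
    rw [hp, hq]; ring
  zero_mem' := by simp
  smul_mem' c p hp := by
    simp only [Set.mem_ofPred_eq, Prod.smul_fst, Prod.smul_snd] at *
    rw [hp, mul_smul_comm]

theorem mem_line (a : F) (p : F × F) : p ∈ (line a : Submodule K (F × F)) ↔ p.2 = a * p.1 :=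
  Iff.rfl

theorem line_injective : Function.Injective (line : F → Submodule K (F × F)) := by
  intro a b h
  have h1 : ((1 : F), a) ∈ (line a : Submodule K (F × F)) := by
    rw [mem_line]; simp
  rw [h, mem_line] at h1
  simpa using h1

/-- the `K`-linear automorphism which sends the lines of slopes `a`, `b` to the axes -/
def toAxes (a b : F) (h : a ≠ b) : (F × F) ≃ₗ[K] (F × F) where
  toFun p := ((p.2 - b * p.1) / (a - b), (p.2 - a * p.1) / (b - a))
  invFun p := (p.1 + p.2, a * p.1 + b * p.2)
  map_add' p q := by
    ext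
    · simp only [Prod.fst_add, Prod.snd_add]; ring
    · simp only [Prod.fst_add, Prod.snd_add]; ring
  map_smul' c p := by
    ext
    · change (c • p.2 - b * (c • p.1)) / (a - b) = c • ((p.2 - b * p.1) / (a - b))
      simp only [Algebra.smul_def]; ring
    · change (c • p.2 - a * (c • p.1)) / (b - a) = c • ((p.2 - a * p.1) / (b - a))
      simp only [Algebra.smul_def]; ring
  left_inv p := by
    have h1 : a - b ≠ 0 := sub_ne_zero.2 h
    have h2 : b - a ≠ 0 := sub_ne_zero.2 h.symm
    ext
    · simp only
      field_simp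
      ring
    · simp only
      field_simp
      ring
  right_inv p := by
    have h1 : a - b ≠ 0 := sub_ne_zero.2 h
    have h2 : b - a ≠ 0 := sub_ne_zero.2 h.symm
    ext
    · simp only
      field_simp
      ring
    · simp only
      field_simp
      ring

/-- the axes -/
def axis1 : Submodule K (F × F) where
  carrier := {p | p.2 = 0}
  add_mem' {p q} hp hq := by
    simp only [Set.mem_ofPred_eq, Prod.snd_add] at *
    rw [hp, hq]; ring
  zero_mem' := by simp
  smul_mem' c p hp := by
    simp only [Set.mem_ofPred_eq, Prod.smul_snd] at *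
    rw [hp, smul_zero]

def axis2 : Submodule K (F × F) where
  carrier := {p | p.1 = 0}
  add_mem' {p q} hp hq := by
    simp only [Set.mem_ofPred_eq, Prod.fst_add] at *
    rw [hp, hq]; ring
  zero_mem' := by simp
  smul_mem' c p hp := by
    simp only [Set.mem_ofPred_eq, Prod.smul_fst] at *
    rw [hp, smul_zero]

theorem map_a (a b : F) (h : a ≠ b) :
    (line a : Submodule K (F × F)).map (toAxes (K := K) a b h).toLinearMap = axis1 := by
  ext p
  constructor
  · rintro ⟨q, hq, rfl⟩
    have hq' : q.2 = a * q.1 := hq
    change (q.2 - a * q.1) / (b - a) = 0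
    rw [hq']; simp
  · intro hp
    have hp' : p.2 = 0 := hp
    refine ⟨(p.1, a * p.1), rfl, ?_⟩
    have h1 : a - b ≠ 0 := sub_ne_zero.2 h
    ext
    · change (a * p.1 - b * p.1) / (a - b) = p.1
      field_simp
    · change (a * p.1 - a * p.1) / (b - a) = p.2
      rw [hp']; simp

theorem map_b (a b : F) (h : a ≠ b) :
    (line b : Submodule K (F × F)).map (toAxes (K := K) a b h).toLinearMap = axis2 := by
  ext p
  constructor
  · rintro ⟨q, hq, rfl⟩
    have hq' : q.2 = b * q.1 := hq
    change (q.2 - b * q.1) / (a - b) = 0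
    rw [hq']; simp
  · intro hp
    have hp' : p.1 = 0 := hp
    refine ⟨(p.2, b * p.2), rfl, ?_⟩
    have h1 : b - a ≠ 0 := sub_ne_zero.2 h.symm
    ext
    · change (b * p.2 - b * p.2) / (a - b) = p.1
      rw [hp']; simp
    · change (b * p.2 - a * p.2) / (b - a) = p.2
      field_simp

theorem lines [Fintype F] {κ : Type}
    (col : Submodule K (F × F) → Submodule K (F × F) → κ)
    (hcol : ∀ (g : (F × F) ≃ₗ[K] (F × F)) (U W : Submodule K (F × F)),
      col (U.map g.toLinearMap) (W.map g.toLinearMap) = col U W) :
    ∃ S : Finset (Submodule K (F × F)), S.card = Fintype.card F ∧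
      ∃ c : κ, ∀ U ∈ S, ∀ W ∈ S, U ≠ W → col U W = c := by
  classical
  refine ⟨Finset.univ.image line, ?_, col axis1 axis2, ?_⟩
  · rw [Finset.card_image_of_injective _ line_injective, Finset.card_univ]
  · intro U hU W hW hne
    obtain ⟨a, -, rfl⟩ := Finset.mem_image.1 hU
    obtain ⟨b, -, rfl⟩ := Finset.mem_image.1 hW
    have hab : a ≠ b := fun h => hne (by rw [h])
    rw [← hcol (toAxes a b hab), map_a, map_b]

end H161R2.SymR
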