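import Mathlib
import Pool.Agent.H161R2.SymBox

set_option autoImplicit false

open Finset

namespace H161R2.SymR

theorem Mono.mono {V : Type} {r : ℕ} {col : V → V → Fin r} {k k' : ℕ} (h : Mono col k)
    (hk : k' ≤ k) : Mono col k' := by
  obtain ⟨S, h1, h2⟩ := h
  exact ⟨S, hk.trans h1, h2⟩

theorem general (r C : ℕ) : ∃ K m0 : ℕ, 2 ≤ K ∧ ∀ m : ℕ, m0 ≤ m → ∀ (V : Type)
    (act : Equiv.Perm (Fin m) → V → V) (v : (Fin K ↪ Fin m) → V),
    (∀ (g : Equiv.Perm (Fin m)) (a : Fin K ↪ Fin m), act g (v a) = v (a.trans g.toEmbedding)) →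
    (∀ a b : Fin K ↪ Fin m, v a = v b → Set.range a = Set.range b) →
    ∀ col : V → V → Fin r,
    (∀ (g : Equiv.Perm (Fin m)) (x y : V), col (act g x) (act g y) = col x y) →
    Mono col (m ^ C) := by
  obtain ⟨e, he2, hFU⟩ := fin_unions r (C + 1)
  refine ⟨e, (2 * e) ^ (C + 1), he2, ?_⟩
  intro m hm V act v hv hinj col hcol
  have hpow : 2 * e ≤ (2 * e) ^ (C + 1) := Nat.le_self_pow (by omega) _
  set t := m / e with ht
  have he : 0 < e := by omega
  have ht2 : 2 ≤ t := by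
    rw [ht, Nat.le_div_iff_mul_le he]
    exact hpow.trans hm
  have hmt : m < e * t + e := by
    have := Nat.div_add_mod m e
    have h2 := Nat.mod_lt m he
    rw [ht]; omega
  have hmt' : m ≤ 2 * e * t := by nlinarith
  have h1 : m ^ C ≤ t ^ (C + 1) := by
    have h2 : m ^ C * (2 * e) ^ (C + 1) ≤ t ^ (C + 1) * (2 * e) ^ (C + 1) := by
      calc m ^ C * (2 * e) ^ (C + 1) ≤ m ^ C * m := Nat.mul_le_mul_left _ hm
        _ = m ^ (C + 1) := (pow_succ _ _).symm
        _ ≤ (2 * e * t) ^ (C + 1) := Nat.pow_le_pow_left hmt' _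
        _ = t ^ (C + 1) * (2 * e) ^ (C + 1) := by rw [mul_pow, mul_comm]
    exact Nat.le_of_mul_le_mul_right h2 (by positivity)
  exact (box r (C + 1) e hFU t m ht2 (Nat.mul_div_le m e) V act v hv hinj col hcol).mono h1

/-- the permutation which rotates the tuple and fixes the other points -/
noncomputable def rot {K m : ℕ} (a : Fin K ↪ Fin m) : Equiv.Perm (Fin m) :=
  Equiv.Perm.viaFintypeEmbedding (finRotate K) a

theorem rot_apply {K m : ℕ} (a : Fin K ↪ Fin m) (i : Fin K) : rot a (a i) = a (finRotate K i) :=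
  Equiv.Perm.viaFintypeEmbedding_apply_image _ _ _

theorem rot_notMem {K m : ℕ} (a : Fin K ↪ Fin m) (x : Fin m) (hx : x ∉ Set.range a) :
    rot a x = x :=
  Equiv.Perm.viaFintypeEmbedding_apply_notMem_range _ _ hx

theorem rot_conj {K m : ℕ} (g : Equiv.Perm (Fin m)) (a : Fin K ↪ Fin m) :
    g * rot a * g⁻¹ = rot (a.trans g.toEmbedding) := by
  ext x
  congr 1
  by_cases hx : x ∈ Set.range (a.trans g.toEmbedding)
  · obtain ⟨i, rfl⟩ := hx
    rw [rot_apply]
    simp only [Function.Embedding.trans_apply, Equiv.coe_toEmbedding, Equiv.Perm.mul_apply]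
    rw [show g⁻¹ (g (a i)) = a i by simp, rot_apply]
  · rw [rot_notMem _ _ hx]
    have h1 : g⁻¹ x ∉ Set.range a := by
      rintro ⟨i, hi⟩
      apply hx
      refine ⟨i, ?_⟩
      simp [hi]
    rw [Equiv.Perm.mul_apply, Equiv.Perm.mul_apply, rot_notMem _ _ h1]
    simp

theorem rot_range {K m : ℕ} (hK : 2 ≤ K) (a : Fin K ↪ Fin m) :
    Set.range a = {x | rot a x ≠ x} := by
  classical
  ext x
  simp only [Set.mem_ofPred_eq]
  constructor
  · rintro ⟨i, rfl⟩
    rw [rot_apply]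
    intro h
    have h2 := a.injective h
    obtain ⟨n, rfl⟩ : ∃ n, K = n + 2 := ⟨K - 2, by omega⟩
    rw [finRotate_apply] at h2
    have h3 : (1 : Fin (n + 2)) = 0 := by
      have := congrArg (fun z => z - i) h2
      simp at this
    exact absurd h3 (by simp)
  · intro h
    by_contra hx
    exact h (rot_notMem _ _ hx)

theorem sets (r C : ℕ) : ∃ m0 : ℕ, ∀ m : ℕ, m0 ≤ m →
    ∀ col : Finset (Fin m) → Finset (Fin m) → Fin r,
    (∀ (g : Equiv.Perm (Fin m)) (A B : Finset (Fin m)),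
      col (A.map g.toEmbedding) (B.map g.toEmbedding) = col A B) → Mono col (m ^ C) := by
  obtain ⟨K, m0, -, h⟩ := general r C
  refine ⟨m0, fun m hm col hcol => ?_⟩
  refine h m hm _ (fun g A => A.map g.toEmbedding) (fun a => Finset.univ.map a) ?_ ?_ col hcol
  · intro g a
    rw [Finset.map_map]
  · intro a b hab
    have := congrArg (fun F : Finset (Fin m) => (F : Set (Fin m))) hab
    simpa using this

theorem perms (r C : ℕ) : ∃ m0 : ℕ, ∀ m : ℕ, m0 ≤ m →
    ∀ col : Equiv.Perm (Fin m) → Equiv.Perm (Fin m) → Fin r,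
    (∀ g s t : Equiv.Perm (Fin m), col (g * s * g⁻¹) (g * t * g⁻¹) = col s t) →
    Mono col (m ^ C) := by
  obtain ⟨K, m0, hK, h⟩ := general r C
  refine ⟨m0, fun m hm col hcol => ?_⟩
  refine h m hm _ (fun g s => g * s * g⁻¹) rot ?_ ?_ col hcol
  · intro g a
    exact rot_conj g a
  · intro a b hab
    rw [rot_range hK, rot_range hK, hab]

theorem graphs (r C : ℕ) : ∃ m0 : ℕ, ∀ m : ℕ, m0 ≤ m →
    ∀ col : SimpleGraph (Fin m) → SimpleGraph (Fin m) → Fin r,
    (∀ (g : Equiv.Perm (Fin m)) (G H : SimpleGraph (Fin m)),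
      col (G.map g.toEmbedding) (H.map g.toEmbedding) = col G H) → Mono col (m ^ C) := by
  obtain ⟨K, m0, hK, h⟩ := general r C
  refine ⟨m0, fun m hm col hcol => ?_⟩
  refine h m hm _ (fun g G => G.map g.toEmbedding) (fun a => SimpleGraph.map a ⊤) ?_ ?_ col hcol
  · intro g a
    ext x y
    simp only [SimpleGraph.map_adj, Function.Embedding.trans_apply]
    constructor
    · rintro ⟨u, w, ⟨u', w', h1, rfl, rfl⟩, rfl, rfl⟩
      exact ⟨u', w', h1, rfl, rfl⟩
    · rintro ⟨u, w, h1, rfl, rfl⟩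
      exact ⟨a u, a w, ⟨u, w, h1, rfl, rfl⟩, rfl, rfl⟩
  · have key : ∀ a : Fin K ↪ Fin m, Set.range a =
        {x | ∃ y, (SimpleGraph.map a (⊤ : SimpleGraph (Fin K))).Adj x y} := by
      intro a
      ext x
      simp only [Set.mem_ofPred_eq, SimpleGraph.map_adj]
      constructor
      · rintro ⟨i, rfl⟩
        have : ∃ j : Fin K, i ≠ j := by
          have : Nontrivial (Fin K) := Fin.nontrivial_iff_two_le.2 hK
          obtain ⟨j, hj⟩ := exists_ne i
          exact ⟨j, hj.symm⟩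
        obtain ⟨j, hj⟩ := this
        exact ⟨a j, i, j, by simpa using hj, rfl, rfl⟩
      · rintro ⟨y, u, w, -, rfl, -⟩
        exact ⟨u, rfl⟩
    intro a b hab
    rw [key a, key b, hab]

end H161R2.SymR
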